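import Pool.Agent.T2h48.AD.Stm

set_option autoImplicit false

namespace Pool.Agent.T2h48.AD

open Finset

namespace ABEL

theorem S_succ (n i : ℕ) : S n (i + 1) = S n i + n ^ i := by
  unfold S; rw [Finset.sum_range_succ]

theorem S_succ' (n i : ℕ) : S n (i + 1) = n * S n i + 1 := by
  unfold S
  rw [Finset.sum_range_succ', Finset.mul_sum]
  simp [pow_succ, mul_comm]

theorem S_mono {a b : ℕ} (h : b ≤ a) (i : ℕ) : S b i ≤ S a i := by
  unfold S
  exact Finset.sum_le_sum fun j _ => Nat.pow_le_pow_left h j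

variable {G : Type} [CommGroup G] [Fintype G] [DecidableEq G]

/-- number of elements of `D` in a coset -/
noncomputable def r (H : Subgroup G) (D : Finset G) (q : G ⧸ H) : ℤ := by
  classical
  exact ((D.filter fun d => (QuotientGroup.mk d : G ⧸ H) = q).card : ℤ)

theorem fib_card (H : Subgroup G) [DecidableEq (G ⧸ H)] (q : G ⧸ H) :
    ((univ : Finset G).filter fun g => (QuotientGroup.mk g : G ⧸ H) = q).card = Nat.card H := by
  classical
  obtain ⟨g, rfl⟩ := QuotientGroup.mk_surjective q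
  rw [Nat.card_eq_fintype_card, ← Finset.card_univ]
  refine (Finset.card_bij (fun (h : H) _ => g * (h : G)) ?_ ?_ ?_).symm
  · intro h _
    simp only [mem_filter, mem_univ, true_and]
    rw [eq_comm, QuotientGroup.eq]
    simp
  · intro h₁ _ h₂ _ he
    exact Subtype.ext (mul_left_cancel he)
  · intro x hx
    simp only [mem_filter, mem_univ, true_and] at hx
    rw [eq_comm, QuotientGroup.eq] at hx
    exact ⟨⟨g⁻¹ * x, hx⟩, mem_univ _, by simp⟩

theorem r_even (φ : G →* G) (D : Finset G) (H : Subgroup G) (h1 : ∀ g, φ (φ g) = g)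
    (h2 : ∀ g, g ∈ D → φ g ∈ D) (h3 : ∀ g, g ∈ H ↔ φ g = g) (x : G ⧸ H) :
    r H D x⁻¹ = r H D x := by
  classical
  have key : ∀ g : G, (QuotientGroup.mk (φ g) : G ⧸ H) = (QuotientGroup.mk g)⁻¹ := by
    intro g
    rw [← QuotientGroup.mk_inv, QuotientGroup.eq, h3]
    simp [h1, mul_comm]
  unfold r
  congr 1
  refine Finset.card_bij (fun d _ => φ d) ?_ ?_ ?_
  · intro d hd
    simp only [mem_filter] at hd ⊢
    exact ⟨h2 d hd.1, by rw [key, hd.2, inv_inv]⟩
  · intro d₁ _ d₂ _ he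
    have := congrArg φ he
    simpa [h1] using this
  · intro d hd
    simp only [mem_filter] at hd
    refine ⟨φ d, ?_, h1 d⟩
    simp only [mem_filter]
    exact ⟨h2 d hd.1, by rw [key, hd.2]⟩

theorem r_conv (φ : G →* G) (D : Finset G) (H : Subgroup G) (b m : ℕ) (hm : 3 ≤ m)
    (h1 : ∀ g, φ (φ g) = g)
    (h2 : ∀ g, g ∈ D → φ g ∈ D) (h3 : ∀ g, g ∈ H ↔ φ g = g) (hD : D.card = S b (m - 1))
    (hd : ∀ g : G, g ≠ 1 →
      ((D ×ˢ D).filter fun p : G × G => p.1 * p.2⁻¹ = g).card = S b (m - 2))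
    [Fintype (G ⧸ H)] [DecidableEq (G ⧸ H)] (g : G ⧸ H) :
    ∑ x, r H D x * r H D (x⁻¹ * g) =
      (if g = 1 then ((b ^ (m - 2) : ℕ) : ℤ) else 0) + ((Nat.card H * S b (m - 2) : ℕ) : ℤ) := by
  classical
  have hr : ∀ q : G ⧸ H, r H D q = ∑ d ∈ D, if (QuotientGroup.mk d : G ⧸ H) = q then (1 : ℤ) else 0 := by
    intro q
    unfold r
    rw [Finset.sum_boole]
    congr!
  have e1 : ∀ x : G ⧸ H, r H D x * r H D (x⁻¹ * g) =
      ∑ p ∈ D ×ˢ D, if (QuotientGroup.mk p.1 : G ⧸ H) = x ∧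
        (QuotientGroup.mk (p.1 * p.2⁻¹) : G ⧸ H) = g then (1 : ℤ) else 0 := by
    intro x
    rw [← r_even φ D H h1 h2 h3 (x⁻¹ * g), hr, hr, Finset.sum_mul_sum, ← Finset.sum_product']
    refine Finset.sum_congr rfl fun p _ => ?_
    have : ((QuotientGroup.mk p.1 : G ⧸ H) = x ∧ (QuotientGroup.mk p.2 : G ⧸ H) = (x⁻¹ * g)⁻¹) ↔
        ((QuotientGroup.mk p.1 : G ⧸ H) = x ∧
        (QuotientGroup.mk (p.1 * p.2⁻¹) : G ⧸ H) = g) := by
      constructor
      · rintro ⟨ha, hb⟩
        refine ⟨ha, ?_⟩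
        rw [QuotientGroup.mk_mul, QuotientGroup.mk_inv, ha, hb]
        simp
      · rintro ⟨ha, hb⟩
        refine ⟨ha, ?_⟩
        rw [QuotientGroup.mk_mul, QuotientGroup.mk_inv, ha] at hb
        rw [← hb]
        simp
    by_cases hx : (QuotientGroup.mk p.1 : G ⧸ H) = x
    · by_cases hy : (QuotientGroup.mk p.2 : G ⧸ H) = (x⁻¹ * g)⁻¹
      · have := this.1 ⟨hx, hy⟩
        simp only [hx, hy, this.2, and_self, if_true]
        norm_num
      · have h' : ¬ (QuotientGroup.mk (p.1 * p.2⁻¹) : G ⧸ H) = g := fun h => hy (this.2 ⟨hx, h⟩).2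
        simp only [hy, h', and_false, if_false, mul_zero]
    · simp only [hx, false_and, if_false, zero_mul]
  have e2 : ∑ x, r H D x * r H D (x⁻¹ * g) =
      ∑ p ∈ D ×ˢ D, if (QuotientGroup.mk (p.1 * p.2⁻¹) : G ⧸ H) = g then (1 : ℤ) else 0 := by
    simp only [e1]
    rw [Finset.sum_comm]
    refine Finset.sum_congr rfl fun p _ => ?_
    by_cases hx : (QuotientGroup.mk (p.1 * p.2⁻¹) : G ⧸ H) = g
    · simp only [hx, and_true, if_true, Finset.sum_ite_eq, mem_univ]
    · simp only [hx, and_false, if_false, Finset.sum_const_zero]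
  have e3 : ∑ p ∈ D ×ˢ D, (if (QuotientGroup.mk (p.1 * p.2⁻¹) : G ⧸ H) = g then (1 : ℤ) else 0) =
      ∑ h ∈ (univ : Finset G).filter (fun h => (QuotientGroup.mk h : G ⧸ H) = g),
        (((D ×ˢ D).filter fun p : G × G => p.1 * p.2⁻¹ = h).card : ℤ) := by
    have : ∀ p ∈ D ×ˢ D, (if (QuotientGroup.mk (p.1 * p.2⁻¹) : G ⧸ H) = g then (1 : ℤ) else 0) =
        ∑ h ∈ (univ : Finset G).filter (fun h => (QuotientGroup.mk h : G ⧸ H) = g),
          if p.1 * p.2⁻¹ = h then (1 : ℤ) else 0 := by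
      intro p _
      rw [Finset.sum_ite_eq]
      simp only [mem_filter, mem_univ, true_and]
    rw [Finset.sum_congr rfl this, Finset.sum_comm]
    refine Finset.sum_congr rfl fun h _ => ?_
    rw [Finset.sum_boole]
  have hS : S b (m - 1) = S b (m - 2) + b ^ (m - 2) := by
    obtain ⟨k, rfl⟩ : ∃ k, m = k + 3 := ⟨m - 3, by omega⟩
    exact S_succ b (k + 1)
  have h11 : ((D ×ˢ D).filter fun p : G × G => p.1 * p.2⁻¹ = 1).card = D.card := by
    refine (Finset.card_bij (fun d _ => (d, d)) ?_ ?_ ?_).symm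
    · intro d hd'; simp [hd']
    · intro d₁ _ d₂ _ he; exact (Prod.ext_iff.1 he).1
    · rintro ⟨x, y⟩ hp
      simp only [mem_filter, mem_product] at hp
      have : x = y := by
        have := hp.2
        rwa [mul_inv_eq_one] at this
      subst this
      exact ⟨x, hp.1.1, rfl⟩
  have e4 : ∀ h : G, (((D ×ˢ D).filter fun p : G × G => p.1 * p.2⁻¹ = h).card : ℤ) =
      (if h = 1 then ((b ^ (m - 2) : ℕ) : ℤ) else 0) + ((S b (m - 2) : ℕ) : ℤ) := by
    intro h
    by_cases hh : h = 1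
    · subst hh
      rw [h11, hD, hS]
      push_cast
      simp
      ring
    · rw [hd h hh]; simp [hh]
  rw [e2, e3, Finset.sum_congr rfl (fun h _ => e4 h), Finset.sum_add_distrib, Finset.sum_const,
    fib_card, nsmul_eq_mul, Finset.sum_ite_eq']
  congr 1
  simp only [mem_filter, mem_univ, true_and, QuotientGroup.mk_one, eq_comm]

end ABEL

open ABEL in
theorem t_ABEL (hRED : S_RED) (hSUMQ : S_SUMQ) (hN1 : S_NUM1) (hN2 : S_NUM2) (hN3 : S_NUM3) :
    S_ABEL := by
  intro G _ _ _ φ D H a b m h1 h2 h3 hH hm ha hb hG hD hd hHc hDH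
  classical
  haveI : Fintype (G ⧸ H) := Fintype.ofFinite _
  have hconv := r_conv φ D H b m hm h1 h2 h3 hD hd
  have hev := r_even φ D H h1 h2 h3
  have hlag : Nat.card (G ⧸ H) * Nat.card H = Nat.card G :=
    (Subgroup.card_eq_card_quotient_mul_card_subgroup H).symm
  have hw : Nat.card (G ⧸ H) = Fintype.card (G ⧸ H) := Nat.card_eq_fintype_card
  set w := Nat.card (G ⧸ H) with hwdef
  have hw2 : 2 ≤ w := by
    have : H.index ≠ 1 := fun h => hH (Subgroup.index_eq_one.1 h)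
    have h0 : w ≠ 0 := by
      rw [hw]; exact Fintype.card_ne_zero
    have h1' : w ≠ 1 := this
    omega
  rw [hHc, hG] at hlag
  have hab : a < b := by
    by_contra hcon
    push Not at hcon
    have h' := S_mono hcon m
    have hpos : 0 < S a m := by
      obtain ⟨k, rfl⟩ : ∃ k, m = k + 1 := ⟨m - 1, by omega⟩
      rw [S_succ']; omega
    nlinarith
  have hk : S b (m - 1) < w * S a (m - 1) := hN3 a b m w ha hab (by omega) hlag
  have hcop : IsCoprime (Fintype.card (G ⧸ H) : ℤ) ((b ^ (m - 2) : ℕ) : ℤ) := by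
    rw [Nat.isCoprime_iff_coprime, ← hw]
    refine Nat.Coprime.pow_right _ ?_
    refine Nat.Coprime.coprime_dvd_left (Dvd.intro _ hlag) ?_
    obtain ⟨k, rfl⟩ : ∃ k, m = k + 1 := ⟨m - 1, by omega⟩
    rw [S_succ']
    simp
  obtain ⟨c, hc, hdvd⟩ := hRED (G ⧸ H) (r H D) ((b ^ (m - 2) : ℕ) : ℤ)
    ((Nat.card H * S b (m - 2) : ℕ) : ℤ) (by exact_mod_cast Nat.one_le_pow _ _ (by omega)) hcop
    (by rw [← hw]; exact hw2) hconv
  have hcb : c ^ 2 = b ^ (m - 2) := by exact_mod_cast hc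
  have hc1 : 1 ≤ c := by
    rcases Nat.eq_zero_or_pos c with h0 | h0
    · subst h0
      have : 0 < b ^ (m - 2) := Nat.pow_pos (by omega)
      rw [← hcb] at this
      simp at this
    · exact h0
  have hr1 : r H D 1 = ((S a (m - 1) : ℕ) : ℤ) := by
    rw [← hDH]
    unfold r
    congr 2
    ext d
    simp only [mem_filter, and_congr_right_iff]
    intro _
    rw [QuotientGroup.eq_one_iff, h3]
  have hsum : ∑ x, r H D x = ((S b (m - 1) : ℕ) : ℤ) := by
    rw [← hD, Finset.card_eq_sum_card_fiberwise (s := D) (t := univ)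
      (f := fun d => (QuotientGroup.mk d : G ⧸ H)) (by intro x _; simp)]
    push_cast
    rfl
  have hsq : ∑ x, r H D x ^ 2 = (c : ℤ) ^ 2 + ((Nat.card H * S b (m - 2) : ℕ) : ℤ) := by
    have := hconv 1
    rw [if_pos rfl, ← hc] at this
    rw [← this]
    refine Finset.sum_congr rfl fun x _ => ?_
    rw [mul_one, hev, sq]
  have hk2 : ((S b (m - 1) : ℕ) : ℤ) ^ 2 =
      (c : ℤ) ^ 2 + ((Nat.card H * S b (m - 2) : ℕ) : ℤ) * (w : ℤ) := by
    have h5 : ∑ g : G ⧸ H, ∑ x, r H D x * r H D (x⁻¹ * g) = (∑ x, r H D x) ^ 2 := by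
      rw [Finset.sum_comm, sq, Finset.sum_mul_sum]
      refine Finset.sum_congr rfl fun x _ => ?_
      exact Fintype.sum_equiv (Equiv.mulLeft x⁻¹) _ _ fun g => rfl
    rw [← hsum, ← h5, Finset.sum_congr rfl (fun g _ => hconv g), Finset.sum_add_distrib,
      Finset.sum_ite_eq', if_pos (mem_univ _), Finset.sum_const, Finset.card_univ, ← hw, ← hc,
      nsmul_eq_mul, mul_comm (w : ℤ)]
  have hfin := hSUMQ (G ⧸ H) (r H D) ((S a (m - 1) : ℕ) : ℤ) ((S b (m - 1) : ℕ) : ℤ) c
    ((Nat.card H * S b (m - 2) : ℕ) : ℤ) w (by rw [hw]) (by exact_mod_cast hw2)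
    (by exact_mod_cast hc1) hr1 hsum hev (fun x => hdvd x 1) hsq hk2 (by exact_mod_cast hk)
  rcases hfin with h6 | ⟨h6, x₀, hx₀, hx₁⟩
  · refine hN1 a b m c w ha hab hm hcb hlag ?_
    have : ((w * S a (m - 1) + c : ℕ) : ℤ) = ((S b (m - 1) + w * c : ℕ) : ℤ) := by
      push_cast
      push_cast at h6
      linarith
    exact_mod_cast this
  · exfalso
    have h7 : w * S a (m - 1) = S b (m - 1) + c := by
      have : ((w * S a (m - 1) : ℕ) : ℤ) = ((S b (m - 1) + c : ℕ) : ℤ) := by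
        push_cast
        push_cast at h6
        linarith
      exact_mod_cast this
    rcases Nat.lt_or_ge m 4 with h8 | h8
    · have hm3 : m = 3 := by omega
      subst hm3
      have hodd : Odd (S b 3) := by
        have : S b 3 = b * (b + 1) + 1 := by
          unfold S; simp [Finset.sum_range_succ]; ring
        rw [this]
        exact (Nat.even_mul_succ_self b).add_one
      have hwodd : Odd w := by
        rw [← hlag] at hodd
        exact Nat.Odd.of_mul_right hodd |> fun _ => (Nat.odd_mul.1 hodd).1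
      have ho : orderOf x₀ ∣ 2 := orderOf_dvd_of_pow_eq_one (by rw [sq, hx₁])
      have ho2 : orderOf x₀ ∣ w := by rw [hw]; exact orderOf_dvd_card
      have : orderOf x₀ ∣ 1 := by
        have h9 := Nat.dvd_gcd ho ho2
        rwa [Nat.Coprime.gcd_eq_one (Nat.coprime_two_left.2 hwodd)] at h9
      exact hx₀ (orderOf_eq_one_iff.1 (Nat.dvd_one.1 this))
    · exact hN2 a b m c w ha hab h8 hcb hlag h7

end Pool.Agent.T2h48.AD
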