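import Pool.Agent.T2h48.AD.Stm

set_option autoImplicit false

namespace Pool.Agent.T2h48.AD

open Finset

theorem t_EVEN : S_EVEN := by
  intro a m ha hm hdvd
  have g : ∀ n i : ℕ, ((S n i : ℕ) : ℤ) * ((n : ℤ) - 1) = (n : ℤ) ^ i - 1 := by
    intro n i
    unfold S
    push_cast
    exact geom_sum_mul (n : ℤ) i
  obtain ⟨q, hq⟩ := hdvd
  have h1 := g a m
  have h2 := g (a ^ 2) m
  rw [hq] at h2
  push_cast at h2
  have h3 : ((a : ℤ) + 1) * q = (a : ℤ) ^ m + 1 := by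
    have hpos : (0 : ℤ) < (a : ℤ) ^ m - 1 := by
      have : (1 : ℤ) < (a : ℤ) ^ m := one_lt_pow₀ (by exact_mod_cast (by omega : 1 < a)) (by omega)
      linarith
    apply mul_left_cancel₀ (ne_of_gt hpos)
    calc ((a : ℤ) ^ m - 1) * (((a : ℤ) + 1) * q)
        = (((S a m : ℕ) : ℤ) * ((a : ℤ) - 1)) * (((a : ℤ) + 1) * q) := by rw [h1]
      _ = ((S a m : ℕ) : ℤ) * q * ((a : ℤ) ^ 2 - 1) := by ring
      _ = ((a : ℤ) ^ 2) ^ m - 1 := h2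
      _ = ((a : ℤ) ^ m - 1) * ((a : ℤ) ^ m + 1) := by ring
  by_contra hodd
  rw [Nat.not_odd_iff_even] at hodd
  obtain ⟨j, rfl⟩ := hodd
  have h4 : ((a : ℤ) + 1) ∣ (a : ℤ) ^ (j + j) - 1 := by
    have h5 : ((a : ℤ) ^ 2 - 1) ∣ ((a : ℤ) ^ 2) ^ j - 1 := by
      simpa using sub_dvd_pow_sub_pow ((a : ℤ) ^ 2) 1 j
    have h6 : ((a : ℤ) + 1) ∣ (a : ℤ) ^ 2 - 1 := ⟨(a : ℤ) - 1, by ring⟩
    have h7 : ((a : ℤ) ^ 2) ^ j = (a : ℤ) ^ (j + j) := by ring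
    rw [← h7]
    exact h6.trans h5
  have h8 : ((a : ℤ) + 1) ∣ 2 := by
    have h9 : ((a : ℤ) + 1) ∣ (a : ℤ) ^ (j + j) + 1 := ⟨q, h3.symm⟩
    have := dvd_sub h9 h4
    have e : (a : ℤ) ^ (j + j) + 1 - ((a : ℤ) ^ (j + j) - 1) = 2 := by ring
    rwa [e] at this
  have := Int.le_of_dvd (by norm_num) h8
  omega

end Pool.Agent.T2h48.AD
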