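import Pool.Agent.T2h48.AD.Stm

/-! Task LIM of project AD. -/

set_option autoImplicit false

namespace Pool.Agent.T2h48.AD

open Finset

namespace LimAux

lemma le_S (N i : ℕ) : N ^ i ≤ S N (i + 1) := by
  unfold S
  exact Finset.single_le_sum (f := fun j => N ^ j) (fun _ _ => Nat.zero_le _)
    (Finset.mem_range.2 (Nat.lt_succ_self i))

lemma S_le (N i : ℕ) (hN : 1 ≤ N) : S N (i + 1) ≤ (i + 1) * N ^ i := by
  unfold S
  calc ∑ j ∈ range (i + 1), N ^ j ≤ ∑ _j ∈ range (i + 1), N ^ i := by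
        refine Finset.sum_le_sum fun j hj => Nat.pow_le_pow_right hN ?_
        have := Finset.mem_range.1 hj; omega
    _ = (i + 1) * N ^ i := by simp

/-- the powers `A ^ M` and `B ^ M` are not of the same order if `A ≠ B` -/
lemma eq_of_bounds (A B K M : ℕ) (hA : 1 ≤ A) (hB : 1 ≤ B) (hM : A * K < M)
    (h1 : A ^ M ≤ K * B ^ M) (h2 : B ^ M ≤ K * A ^ M) : A = B := by
  have key : ¬ (A + 1) ^ M ≤ K * A ^ M := by
    intro h
    have h3 : (((A : ℝ) + 1)) ^ M ≤ K * (A : ℝ) ^ M := by exact_mod_cast h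
    have hA0 : (0 : ℝ) < A := by exact_mod_cast hA
    have h4 : (1 + (M : ℝ) * (1 / A)) ≤ (1 + 1 / (A : ℝ)) ^ M :=
      one_add_mul_le_pow (by have : 0 ≤ 1 / (A : ℝ) := by positivity
                             linarith) M
    have h5 : (1 + 1 / (A : ℝ)) ^ M * (A : ℝ) ^ M = ((A : ℝ) + 1) ^ M := by
      rw [← mul_pow]; congr 1; field_simp
    have hAM : (0 : ℝ) < (A : ℝ) ^ M := by positivity
    have h6 : (1 + 1 / (A : ℝ)) ^ M ≤ K := by
      by_contra h7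
      push Not at h7
      have := mul_lt_mul_of_pos_right h7 hAM
      linarith
    have h7 : 1 + (M : ℝ) * (1 / A) ≤ K := h4.trans h6
    have h8 : (M : ℝ) * (1 / A) ≤ K := by linarith
    have h9 : (M : ℝ) ≤ K * A := by
      rw [mul_one_div, div_le_iff₀ hA0] at h8
      exact h8
    have h10 : M ≤ K * A := by exact_mod_cast h9
    rw [mul_comm] at h10
    omega
  rcases lt_trichotomy A B with h | h | h
  · exact absurd ((Nat.pow_le_pow_left h M).trans h2) key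
  · exact h
  · exfalso
    apply key
    have h3 : B * (A + 1) ≤ A * A := by nlinarith
    have h4 : B ^ M * (A + 1) ^ M ≤ B ^ M * (K * A ^ M) := by
      calc B ^ M * (A + 1) ^ M = (B * (A + 1)) ^ M := (mul_pow _ _ _).symm
        _ ≤ (A * A) ^ M := Nat.pow_le_pow_left h3 M
        _ = A ^ M * A ^ M := mul_pow _ _ _
        _ ≤ (K * B ^ M) * A ^ M := Nat.mul_le_mul_right _ h1
        _ = B ^ M * (K * A ^ M) := by ring
    exact Nat.le_of_mul_le_mul_left h4 (by positivity)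

end LimAux

open LimAux

/-- task LIM -/
theorem t_LIM : S_LIM := by
  intro q n i e C N hq hn hi he hN0 hNs hNb hmain
  have hj : ∀ s, ∃ j ≤ s, N s = n ^ (2 ^ j) := by
    intro s
    induction s with
    | zero => exact ⟨0, le_rfl, by simpa using hN0⟩
    | succ s ih =>
      obtain ⟨j, hjs, hj⟩ := ih
      rcases hNs s with h | h
      · exact ⟨j, by omega, by rw [h, hj]⟩
      · exact ⟨j + 1, by omega, by rw [h, hj, ← pow_mul, pow_succ]⟩
  set A : ℕ := n ^ i with hA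
  set K : ℕ := (C + 1) + 2 * e * (i + 1) with hK
  have hA1 : 1 ≤ A := Nat.one_le_pow _ _ (by omega)
  obtain ⟨s, hs⟩ := hNb (n ^ (2 ^ (A * K + 4 * C ^ 2)))
  obtain ⟨j, hjs, hjN⟩ := hj s
  rw [hjN] at hs
  have hjJ : A * K + 4 * C ^ 2 < j := by
    have h1 := (Nat.pow_lt_pow_iff_right (by omega : 1 < n)).1 hs
    exact (Nat.pow_lt_pow_iff_right (by norm_num : 1 < 2)).1 h1
  obtain ⟨h, d, hhC, hdC, hh0, hineq⟩ := hmain s
  have hN1 : 1 ≤ N s := by rw [hjN]; exact Nat.one_le_pow _ _ (by omega)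
  have hSpos : 1 ≤ S (N s) (i + 1) := (Nat.one_le_pow _ _ hN1).trans (le_S (N s) i)
  have hh : 1 ≤ h := by
    rcases Nat.eq_zero_or_pos h with h0 | h0
    · have := hh0 h0; omega
    · exact h0
  set Q : ℕ := q ^ (2 ^ s) with hQ
  have hjlt : j < 2 ^ j := Nat.lt_two_pow_self
  have hslt : s < 2 ^ s := Nat.lt_two_pow_self
  have hQlt : 2 ^ s < 2 ^ (2 ^ s) := Nat.lt_two_pow_self
  have hQbig : 4 * C ^ 2 ≤ Q := by
    have h1 : 2 ^ (2 ^ s) ≤ Q := Nat.pow_le_pow_left hq _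
    omega
  have hQpos : 1 ≤ Q := Nat.one_le_pow _ _ (by omega)
  have hsq : (2 * C : ℝ) ≤ √(Q : ℝ) := by
    apply Real.le_sqrt_of_sq_le
    have : ((4 * C ^ 2 : ℕ) : ℝ) ≤ (Q : ℝ) := by exact_mod_cast hQbig
    push_cast at this
    nlinarith
  have hsq0 : 0 < √(Q : ℝ) := Real.sqrt_pos.2 (by exact_mod_cast hQpos)
  set X : ℝ := (Q : ℝ) ^ d with hX
  have hX0 : 0 < X := by
    have : (0 : ℝ) < Q := by exact_mod_cast hQpos
    positivity
  have h1 : |((e * S (N s) (i + 1) : ℕ) : ℝ) - h * X| ≤ X / 2 := by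
    have h2 : |((e * S (N s) (i + 1) : ℕ) : ℝ) - h * X| * √(Q : ℝ) ≤ X / 2 * √(Q : ℝ) := by
      refine hineq.trans ?_
      nlinarith
    exact le_of_mul_le_mul_right h2 hsq0
  have h2 := abs_le.1 h1
  have hh' : (1 : ℝ) ≤ h := by exact_mod_cast hh
  have hhC' : (h : ℝ) ≤ C := by exact_mod_cast hhC
  have h3 : X ≤ 2 * ((e * S (N s) (i + 1) : ℕ) : ℝ) := by nlinarith [h2.1]
  have h4 : ((e * S (N s) (i + 1) : ℕ) : ℝ) ≤ (C + 1) * X := by nlinarith [h2.2]
  -- back to natural numbers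
  have hXn : X = ((Q ^ d : ℕ) : ℝ) := by rw [hX]; push_cast; rfl
  rw [hXn] at h3 h4
  have h3' : Q ^ d ≤ 2 * (e * S (N s) (i + 1)) := by exact_mod_cast h3
  have h4' : e * S (N s) (i + 1) ≤ (C + 1) * Q ^ d := by exact_mod_cast h4
  have h5 : Q ^ d ≤ K * (N s) ^ i := by
    have h6 := S_le (N s) i hN1
    calc Q ^ d ≤ 2 * (e * S (N s) (i + 1)) := h3'
      _ ≤ 2 * (e * ((i + 1) * (N s) ^ i)) := by gcongr
      _ = (2 * e * (i + 1)) * (N s) ^ i := by ring
      _ ≤ K * (N s) ^ i := Nat.mul_le_mul_right _ (by omega)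
  have h6 : (N s) ^ i ≤ K * Q ^ d := by
    calc (N s) ^ i ≤ S (N s) (i + 1) := le_S _ _
      _ = 1 * S (N s) (i + 1) := (one_mul _).symm
      _ ≤ e * S (N s) (i + 1) := Nat.mul_le_mul_right _ he
      _ ≤ (C + 1) * Q ^ d := h4'
      _ ≤ K * Q ^ d := Nat.mul_le_mul_right _ (by omega)
  obtain ⟨t, rfl⟩ := Nat.exists_eq_add_of_le hjs
  have hQd : Q ^ d = (q ^ (2 ^ t * d)) ^ (2 ^ j) := by
    rw [hQ, ← pow_mul, ← pow_mul]; congr 1; rw [pow_add]; ring
  have hNd : (N (j + t)) ^ i = A ^ (2 ^ j) := by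
    rw [hjN, hA, ← pow_mul, ← pow_mul, mul_comm]
  rw [hQd, hNd] at h5 h6
  exact ⟨2 ^ t * d, eq_of_bounds A (q ^ (2 ^ t * d)) K (2 ^ j) hA1
    (Nat.one_le_pow _ _ (by omega)) (by omega) h6 h5⟩

end Pool.Agent.T2h48.AD
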