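import Pool.Agent.T2h48.AD.Stm

/-! Task NUM1 of project AD. -/

set_option autoImplicit false

namespace Pool.Agent.T2h48.AD

open Finset

namespace Num1Aux

lemma S_cast (n i : ℕ) : ((S n i : ℕ) : ℝ) = ∑ j ∈ range i, (n : ℝ) ^ j := by
  simp [S]

lemma S_mul (n i : ℕ) : ((S n i : ℕ) : ℝ) * ((n : ℝ) - 1) = (n : ℝ) ^ i - 1 := by
  rw [S_cast, geom_sum_mul]

lemma S_succ (n i : ℕ) : ((S n (i + 1) : ℕ) : ℝ) = n * (S n i : ℕ) + 1 := by
  rw [S_cast, S_cast, Finset.sum_range_succ', Finset.mul_sum]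
  congr 1
  refine Finset.sum_congr rfl fun j _ => by ring

/-- each term has the sign of `y - a` -/
lemma term_nonneg (a y : ℝ) (ha : 1 ≤ a) (hy : 1 ≤ y) (hay : a ≤ y) (M i j : ℕ) (hij : i + j = M) :
    0 ≤ (y ^ j - y ^ i) * (a ^ i * y ^ j - a ^ j * y ^ i) := by
  have ha0 : 0 < a := by linarith
  have hy0 : 0 < y := by linarith
  rcases le_total i j with h | h
  · obtain ⟨t, rfl⟩ := Nat.exists_eq_add_of_le h
    have e : (y ^ (i + t) - y ^ i) * (a ^ i * y ^ (i + t) - a ^ (i + t) * y ^ i) =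
        (y ^ i * y ^ i * a ^ i) * (y ^ t - 1) * (y ^ t - a ^ t) := by ring
    rw [e]
    have h1 : 1 ≤ y ^ t := one_le_pow₀ hy
    have h2 : a ^ t ≤ y ^ t := pow_le_pow_left₀ ha0.le hay t
    have h3 : 0 ≤ y ^ i * y ^ i * a ^ i := by positivity
    exact mul_nonneg (mul_nonneg h3 (by linarith)) (by linarith)
  · obtain ⟨t, rfl⟩ := Nat.exists_eq_add_of_le h
    have e : (y ^ j - y ^ (j + t)) * (a ^ (j + t) * y ^ j - a ^ j * y ^ (j + t)) =
        (y ^ j * y ^ j * a ^ j) * (y ^ t - 1) * (y ^ t - a ^ t) := by ring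
    rw [e]
    have h1 : 1 ≤ y ^ t := one_le_pow₀ hy
    have h2 : a ^ t ≤ y ^ t := pow_le_pow_left₀ ha0.le hay t
    have h3 : 0 ≤ y ^ j * y ^ j * a ^ j := by positivity
    exact mul_nonneg (mul_nonneg h3 (by linarith)) (by linarith)

lemma term_nonpos (a y : ℝ) (ha : 1 ≤ a) (hy : 1 ≤ y) (hay : y ≤ a) (M i j : ℕ) (hij : i + j = M) :
    (y ^ j - y ^ i) * (a ^ i * y ^ j - a ^ j * y ^ i) ≤ 0 := by
  have ha0 : 0 < a := by linarith
  have hy0 : 0 < y := by linarith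
  rcases le_total i j with h | h
  · obtain ⟨t, rfl⟩ := Nat.exists_eq_add_of_le h
    have e : (y ^ (i + t) - y ^ i) * (a ^ i * y ^ (i + t) - a ^ (i + t) * y ^ i) =
        -((y ^ i * y ^ i * a ^ i) * (y ^ t - 1) * (a ^ t - y ^ t)) := by ring
    rw [e]
    have h1 : 1 ≤ y ^ t := one_le_pow₀ hy
    have h2 : y ^ t ≤ a ^ t := pow_le_pow_left₀ hy0.le hay t
    have h3 : 0 ≤ y ^ i * y ^ i * a ^ i := by positivity
    exact neg_nonpos.2 (mul_nonneg (mul_nonneg h3 (by linarith)) (by linarith))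
  · obtain ⟨t, rfl⟩ := Nat.exists_eq_add_of_le h
    have e : (y ^ j - y ^ (j + t)) * (a ^ (j + t) * y ^ j - a ^ j * y ^ (j + t)) =
        -((y ^ j * y ^ j * a ^ j) * (y ^ t - 1) * (a ^ t - y ^ t)) := by ring
    rw [e]
    have h1 : 1 ≤ y ^ t := one_le_pow₀ hy
    have h2 : y ^ t ≤ a ^ t := pow_le_pow_left₀ hy0.le hay t
    have h3 : 0 ≤ y ^ j * y ^ j * a ^ j := by positivity
    exact neg_nonpos.2 (mul_nonneg (mul_nonneg h3 (by linarith)) (by linarith))

/-- the equation `y ^ M * ∑ a ^ i = ∑ b ^ i a ^ (M - i)`, `b = y ^ 2`, forces `y = a` -/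
lemma eq_of_sum (a y : ℝ) (ha : 1 ≤ a) (hy : 1 < y) (M : ℕ) (hM : 1 ≤ M)
    (h : y ^ M * ∑ i ∈ range (M + 1), a ^ i =
      ∑ i ∈ range (M + 1), (y ^ 2) ^ i * a ^ (M - i)) : y = a := by
  have hrefl1 : ∑ i ∈ range (M + 1), a ^ (M - i) = ∑ i ∈ range (M + 1), a ^ i := by
    rw [← Finset.sum_range_reflect]
    refine Finset.sum_congr rfl fun i hi => ?_
    have : i < M + 1 := Finset.mem_range.1 hi
    congr 1; omega
  have hrefl2 : ∑ i ∈ range (M + 1), (y ^ 2) ^ (M - i) * a ^ i =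
      ∑ i ∈ range (M + 1), (y ^ 2) ^ i * a ^ (M - i) := by
    rw [← Finset.sum_range_reflect]
    refine Finset.sum_congr rfl fun i hi => ?_
    have : i < M + 1 := Finset.mem_range.1 hi
    congr 2
    · omega
  have hsum : ∑ i ∈ range (M + 1),
      (y ^ (M - i) - y ^ i) * (a ^ i * y ^ (M - i) - a ^ (M - i) * y ^ i) = 0 := by
    have e : ∀ i ∈ range (M + 1),
        (y ^ (M - i) - y ^ i) * (a ^ i * y ^ (M - i) - a ^ (M - i) * y ^ i) =
        (y ^ 2) ^ (M - i) * a ^ i + (y ^ 2) ^ i * a ^ (M - i) - y ^ M * a ^ i -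
          y ^ M * a ^ (M - i) := by
      intro i hi
      have hi' : i < M + 1 := Finset.mem_range.1 hi
      have h1 : y ^ M = y ^ i * y ^ (M - i) := by rw [← pow_add]; congr 1; omega
      rw [h1, ← pow_mul, ← pow_mul, mul_comm 2 (M - i), mul_comm 2 i, pow_mul, pow_mul]
      ring
    rw [Finset.sum_congr rfl e, Finset.sum_sub_distrib, Finset.sum_sub_distrib,
      Finset.sum_add_distrib, hrefl2, ← Finset.mul_sum, ← Finset.mul_sum, hrefl1]
    linarith
  have hyM : 1 < y ^ M := one_lt_pow₀ hy (by omega)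
  rcases lt_trichotomy y a with hlt | heq | hgt
  · exfalso
    have h1 : ∀ i ∈ range (M + 1),
        (y ^ (M - i) - y ^ i) * (a ^ i * y ^ (M - i) - a ^ (M - i) * y ^ i) ≤ 0 := by
      intro i hi
      have hi' : i < M + 1 := Finset.mem_range.1 hi
      exact term_nonpos a y ha hy.le hlt.le M i (M - i) (by omega)
    have h2 := (Finset.sum_eq_zero_iff_of_nonpos h1).1 hsum 0 (by simp)
    simp only [Nat.sub_zero, pow_zero, one_mul, mul_one] at h2
    have h3 : y ^ M < a ^ M := pow_lt_pow_left₀ hlt (by linarith) (by omega)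
    have : (y ^ M - 1) * (y ^ M - a ^ M) < 0 := mul_neg_of_pos_of_neg (by linarith) (by linarith)
    linarith
  · exact heq
  · exfalso
    have h1 : ∀ i ∈ range (M + 1),
        0 ≤ (y ^ (M - i) - y ^ i) * (a ^ i * y ^ (M - i) - a ^ (M - i) * y ^ i) := by
      intro i hi
      have hi' : i < M + 1 := Finset.mem_range.1 hi
      exact term_nonneg a y ha hy.le hgt.le M i (M - i) (by omega)
    have h2 := (Finset.sum_eq_zero_iff_of_nonneg h1).1 hsum 0 (by simp)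
    simp only [Nat.sub_zero, pow_zero, one_mul, mul_one] at h2
    have h3 : a ^ M < y ^ M := pow_lt_pow_left₀ hgt (by linarith) (by omega)
    have : 0 < (y ^ M - 1) * (y ^ M - a ^ M) := mul_pos (by linarith) (by linarith)
    linarith

end Num1Aux

open Num1Aux

/-- task NUM1 -/
theorem t_NUM1 : S_NUM1 := by
  intro a b m c w ha hab hm hc hw hw2
  obtain ⟨M, rfl⟩ : ∃ M, m = M + 2 := ⟨m - 2, by omega⟩
  have hM : 1 ≤ M := by omega
  simp only [Nat.add_sub_cancel, show M + 2 - 1 = M + 1 by omega] at hc hw2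
  have ha' : (2 : ℝ) ≤ a := by exact_mod_cast ha
  have hb' : (2 : ℝ) < b := by exact_mod_cast (by omega : 2 < b)
  have hab' : (a : ℝ) < b := by exact_mod_cast hab
  have hc' : (c : ℝ) ^ 2 = (b : ℝ) ^ M := by exact_mod_cast hc
  have hwr : (w : ℝ) * (a * (S a (M + 1) : ℕ) + 1) = b * (S b (M + 1) : ℕ) + 1 := by
    rw [← S_succ, ← S_succ]; exact_mod_cast hw
  have hw2r : (w : ℝ) * (S a (M + 1) : ℕ) + c = (S b (M + 1) : ℕ) + w * c := by
    exact_mod_cast hw2
  have hK := S_mul a (M + 1)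
  have hB := S_mul b (M + 1)
  have hKs : ((S a (M + 1) : ℕ) : ℝ) = ∑ i ∈ range (M + 1), (a : ℝ) ^ i := S_cast a (M + 1)
  generalize ((S a (M + 1) : ℕ) : ℝ) = K at *
  generalize ((S b (M + 1) : ℕ) : ℝ) = B at *
  have hB2 : B * (b - 1) = c ^ 2 * b - 1 := by rw [hB, hc']; ring
  have e1 : (B - c) * (a * K + 1) = (K - c) * (b * B + 1) := by
    have h1 : w * (K - c) = B - c := by linarith
    rw [← h1, ← hwr]; ring
  have hcpos : (0 : ℝ) ≤ c := by positivity
  have e2 : (c * b + 1 : ℝ) * (c ^ 2 * b - 1) = (c * b + 1) * (K * (c * (b - a) + a - 1)) := by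
    have h1 : B * (1 + c * b) = K * ((b - a) * B + 1 + c * a) := by linarith
    have h2 : (B * (b - 1)) * (1 + c * b) =
        K * ((b - a) * (B * (b - 1)) + (1 + c * a) * (b - 1)) := by
      linear_combination (b - 1 : ℝ) * h1
    rw [hB2] at h2
    linear_combination h2
  have hpos : (c * b + 1 : ℝ) ≠ 0 := by positivity
  have e3 := mul_left_cancel₀ hpos e2
  have e4 : (c * K : ℝ) * (b - a) = (b : ℝ) ^ (M + 1) - (a : ℝ) ^ (M + 1) := by
    have : (b : ℝ) ^ (M + 1) = c ^ 2 * b := by rw [hc']; ring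
    rw [this]
    linear_combination (-1 : ℝ) * e3 - hK
  have e5 := geom_sum₂_mul (b : ℝ) (a : ℝ) (M + 1)
  have hba : (b - a : ℝ) ≠ 0 := by linarith
  have e6 : (c * K : ℝ) = ∑ i ∈ range (M + 1), (b : ℝ) ^ i * (a : ℝ) ^ (M + 1 - 1 - i) := by
    apply mul_right_cancel₀ hba
    rw [e4, e5]
  -- `y = √b`
  have hy2 : (√(b : ℝ)) ^ 2 = b := Real.sq_sqrt (by positivity)
  have hyM : (√(b : ℝ)) ^ M = c := by
    have h1 : ((√(b : ℝ)) ^ M) ^ 2 = (c : ℝ) ^ 2 := by
      rw [hc', ← pow_mul, mul_comm, pow_mul, hy2]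
    exact (pow_left_inj₀ (by positivity) hcpos two_ne_zero).1 h1
  have hy1 : 1 < √(b : ℝ) := by
    rw [Real.lt_sqrt (by norm_num)]; linarith
  have hfin := eq_of_sum (a : ℝ) (√(b : ℝ)) (by linarith) hy1 M hM (by
    rw [hyM, hy2, ← hKs, e6]
    simp)
  have : (b : ℝ) = (a : ℝ) ^ 2 := by rw [← hy2, hfin]
  exact_mod_cast this

end Pool.Agent.T2h48.AD
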