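import Pool.Agent.T2h48.AD.Stm

set_option autoImplicit false

namespace Pool.Agent.T2h48.AD

open Finset

namespace NUM2

theorem S_succ' (n i : ℕ) : S n (i + 1) = n * S n i + 1 := by
  unfold S
  rw [Finset.sum_range_succ', Finset.mul_sum]
  simp [pow_succ, mul_comm]

theorem core (a b K k c w : ℤ) (ha : 2 ≤ a) (hab : a < b) (hK : a ^ 2 + a + 1 ≤ K)
    (hc : b ≤ c) (hw : 1 ≤ w)
    (h1 : w * K = k + c) (h2 : w * (a * K + 1) = b * k + 1)
    (h3 : (b - 1) * (b * k + 1) = (b * c) ^ 2 - 1) : False := by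
  have e1 : w * ((b - a) * K - 1) = b * c - 1 := by
    have : w * ((b - a) * K - 1) = b * (w * K) - w * (a * K + 1) := by ring
    rw [this, h1, h2]; ring
  have e2 : w * ((a * K + 1) * (b - 1)) = (b * c + 1) * (b * c - 1) := by
    have : w * ((a * K + 1) * (b - 1)) = (b - 1) * (w * (a * K + 1)) := by ring
    rw [this, h2, h3]; ring
  have e3 : (a * K + 1) * (b - 1) = ((b - a) * K - 1) * (b * c + 1) := by
    rw [← e1] at e2
    have : w * ((a * K + 1) * (b - 1)) = w * (((b - a) * K - 1) * (b * c + 1)) := by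
      rw [e2]; ring
    exact mul_left_cancel₀ (by omega) this
  have hK7 : 7 ≤ K := by nlinarith
  have hB : b ^ 2 ≤ b * c := by nlinarith
  have hpos : 0 ≤ (b - a) * K - 1 := by nlinarith
  have e4 : ((b - a) * K - 1) * (b ^ 2 + 1) ≤ (a * K + 1) * (b - 1) := by
    rw [e3]
    exact mul_le_mul_of_nonneg_left (by linarith) hpos
  rcases le_or_gt (2 * a) b with h | h
  · have h5 : a * K - 1 ≤ (b - a) * K - 1 := by nlinarith
    have h6 : (a * K - 1) * (b ^ 2 + 1) ≤ (a * K + 1) * (b - 1) := by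
      refine le_trans ?_ e4
      exact mul_le_mul_of_nonneg_right h5 (by positivity)
    have h7 : a * K + 1 ≤ 2 * (a * K - 1) := by nlinarith
    have h8 : (a * K + 1) * (b - 1) ≤ 2 * (a * K - 1) * (b - 1) :=
      mul_le_mul_of_nonneg_right h7 (by linarith)
    have h9 : (a * K - 1) * (b ^ 2 + 1 - 2 * (b - 1)) ≤ 0 := by nlinarith
    have h10 : 0 < (a * K - 1) * (b ^ 2 + 1 - 2 * (b - 1)) := by
      apply mul_pos
      · nlinarith
      · nlinarith [sq_nonneg (b - 1)]
    linarith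
  · have h5 : K - 1 ≤ (b - a) * K - 1 := by nlinarith
    have h6 : (K - 1) * (b ^ 2 + 1) ≤ (a * K + 1) * (b - 1) := by
      refine le_trans ?_ e4
      exact mul_le_mul_of_nonneg_right h5 (by positivity)
    have h7 : a * K + 1 ≤ (b - 1) * K + 1 := by nlinarith
    have h8 : (a * K + 1) * (b - 1) ≤ ((b - 1) * K + 1) * (b - 1) :=
      mul_le_mul_of_nonneg_right h7 (by linarith)
    have h9 : b * (2 * K - b - 1) ≤ 0 := by nlinarith
    have h10 : 0 < b * (2 * K - b - 1) := by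
      apply mul_pos
      · linarith
      · nlinarith
    linarith

end NUM2

open NUM2 in
theorem t_NUM2 : S_NUM2 := by
  intro a b m c w ha hab hm hc h1 h2
  obtain ⟨j, rfl⟩ : ∃ j, m = j + 4 := ⟨m - 4, by omega⟩
  have e1 : j + 4 - 1 = j + 3 := by omega
  have e2 : j + 4 - 2 = j + 2 := by omega
  rw [e1] at h2
  rw [e2] at hc
  have hcb : b ≤ c := by
    by_contra hcon
    push Not at hcon
    have : c ^ 2 < b ^ 2 := Nat.pow_lt_pow_left hcon (by norm_num)
    have h' : b ^ 2 ≤ b ^ (j + 2) := Nat.pow_le_pow_right (by omega) (by omega)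
    omega
  have hw : 1 ≤ w := by
    rcases Nat.eq_zero_or_pos w with h | h
    · subst h
      have : S b (j + 4) = b * S b (j + 3) + 1 := S_succ' b (j + 3)
      omega
    · exact h
  have hK : a ^ 2 + a + 1 ≤ S a (j + 3) := by
    unfold S
    have : ∑ i ∈ range 3, a ^ i ≤ ∑ i ∈ range (j + 3), a ^ i :=
      Finset.sum_le_sum_of_subset (Finset.range_mono (by omega))
    refine le_trans ?_ this
    simp [Finset.sum_range_succ]
    omega
  rw [S_succ' a (j + 3), S_succ' b (j + 3)] at h1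
  have h3 : ((b : ℤ) - 1) * ((b : ℤ) * ((S b (j + 3) : ℕ) : ℤ) + 1) = ((b : ℤ) * (c : ℤ)) ^ 2 - 1 := by
    have g : ((S b (j + 3) : ℕ) : ℤ) * ((b : ℤ) - 1) = (b : ℤ) ^ (j + 3) - 1 := by
      unfold S
      push_cast
      exact geom_sum_mul (b : ℤ) (j + 3)
    have hc' : (c : ℤ) ^ 2 = (b : ℤ) ^ (j + 2) := by exact_mod_cast hc
    have : ((b : ℤ) * (c : ℤ)) ^ 2 = (b : ℤ) ^ 2 * (c : ℤ) ^ 2 := by ring
    rw [this, hc']
    have : ((b : ℤ) - 1) * ((b : ℤ) * ((S b (j + 3) : ℕ) : ℤ) + 1) =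
      (b : ℤ) * (((S b (j + 3) : ℕ) : ℤ) * ((b : ℤ) - 1)) + ((b : ℤ) - 1) := by ring
    rw [this, g]
    ring
  exact core a b (S a (j + 3) : ℕ) (S b (j + 3) : ℕ) c w (by exact_mod_cast ha)
    (by exact_mod_cast hab) (by exact_mod_cast hK) (by exact_mod_cast hcb) (by exact_mod_cast hw)
    (by exact_mod_cast h2) (by exact_mod_cast h1) h3

end Pool.Agent.T2h48.AD
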