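import Pool.Agent.T2h48.AD.Stm

set_option autoImplicit false

namespace Pool.Agent.T2h48.AD

open Finset

namespace NUM3

theorem S_succ' (n i : ℕ) : S n (i + 1) = n * S n i + 1 := by
  unfold S
  rw [Finset.sum_range_succ', Finset.mul_sum]
  simp [pow_succ, mul_comm]

end NUM3

open NUM3 in
theorem t_NUM3 : S_NUM3 := by
  intro a b m w ha hab hm h
  obtain ⟨k, rfl⟩ : ∃ k, m = k + 1 := ⟨m - 1, by omega⟩
  rw [S_succ', S_succ'] at h
  simp only [Nat.add_sub_cancel]
  set A := S a k with hA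
  set B := S b k with hB
  have hApos : 1 ≤ A := by
    obtain ⟨j, rfl⟩ : ∃ j, k = j + 1 := ⟨k - 1, by omega⟩
    rw [hA, S_succ']; omega
  have hBpos : 1 ≤ B := by
    obtain ⟨j, rfl⟩ : ∃ j, k = j + 1 := ⟨k - 1, by omega⟩
    rw [hB, S_succ']; omega
  -- w (a A + 1) = b B + 1; claim B < w A
  by_contra hcon
  push Not at hcon
  -- w A ≤ B; b B + 1 = a (w A) + w ≤ a B + w so (b - a) B + 1 ≤ w
  have h1 : b * B + 1 ≤ a * B + w := by nlinarith
  have h2 : B + 1 ≤ w := by nlinarith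
  nlinarith

end Pool.Agent.T2h48.AD
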