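import Pool.Agent.T2h48.AD.Stm

/-! Task PLANE of project AD. -/

set_option autoImplicit false

namespace Pool.Agent.T2h48.AD

open Finset

set_option linter.unusedSimpArgs false

/-- task PLANE -/
theorem t_PLANE : S_PLANE := by
  intro G _ _ _ φ D H a b hφ hD hH hne ha hb hG hDc hdiff hHc hDφ
  classical
  -- uniqueness of the pair
  have huniq : ∀ g : G, g ≠ 1 → ∀ d₁ ∈ D, ∀ d₂ ∈ D, ∀ e₁ ∈ D, ∀ e₂ ∈ D, d₁ * d₂⁻¹ = g →
      e₁ * e₂⁻¹ = g → d₁ = e₁ ∧ d₂ = e₂ := by
    intro g hg d₁ h1 d₂ h2 e₁ h3 e₂ h4 h5 h6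
    obtain ⟨p, hp⟩ := Finset.card_eq_one.1 (hdiff g hg)
    have h7 : (d₁, d₂) ∈ (D ×ˢ D).filter fun p : G × G => p.1 * p.2⁻¹ = g := by
      simp [h1, h2, h5]
    have h8 : (e₁, e₂) ∈ (D ×ˢ D).filter fun p : G × G => p.1 * p.2⁻¹ = g := by
      simp [h3, h4, h6]
    rw [hp, Finset.mem_singleton] at h7 h8
    have := h7.trans h8.symm
    simpa using this
  have hexist : ∀ g : G, g ≠ 1 → ∃ d₁ ∈ D, ∃ d₂ ∈ D, d₁ * d₂⁻¹ = g := by
    intro g hg
    have : 0 < ((D ×ˢ D).filter fun p : G × G => p.1 * p.2⁻¹ = g).card := by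
      rw [hdiff g hg]; exact one_pos
    obtain ⟨p, hp⟩ := Finset.card_pos.1 this
    simp only [Finset.mem_filter, Finset.mem_product] at hp
    exact ⟨p.1, hp.1.1, p.2, hp.1.2, hp.2⟩
  -- the bijection
  have hcard : ((univ.filter fun g : G => φ g = g) ×ˢ (D.filter fun d => ¬ φ d = d)).card =
      (univ.filter fun x : G => ¬ φ x = x).card := by
    refine Finset.card_nbij (fun p : G × G => p.2 * p.1) ?_ ?_ ?_
    · intro p hp
      simp only [Finset.coe_filter, Finset.mem_product, Finset.mem_filter, Finset.mem_univ,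
        true_and, Set.mem_ofPred_eq, Finset.coe_product, Set.mem_prod] at hp ⊢
      rw [map_mul, hp.1]
      intro h
      exact hp.2.2 (mul_right_cancel h)
    · intro p hp q hq hpq
      simp only [Finset.coe_filter, Finset.mem_product, Finset.mem_filter, Finset.mem_univ,
        true_and, Set.mem_ofPred_eq, Finset.coe_product, Set.mem_prod] at hp hq hpq
      -- x = p.2 * p.1 = q.2 * q.1
      set x := p.2 * p.1 with hx
      have hxn : φ x ≠ x := by
        rw [hx, map_mul, hp.1]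
        intro h
        exact hp.2.2 (mul_right_cancel h)
      have hg : x * (φ x)⁻¹ ≠ 1 := by
        intro h
        exact hxn (mul_inv_eq_one.1 h).symm
      have e1 : p.2 * (φ p.2)⁻¹ = x * (φ x)⁻¹ := by
        rw [hx, map_mul, hp.1]; group
      have e2 : q.2 * (φ q.2)⁻¹ = x * (φ x)⁻¹ := by
        rw [hpq, map_mul, hq.1]; group
      have h3 := (huniq _ hg p.2 hp.2.1 (φ p.2) (hD _ hp.2.1) q.2 hq.2.1 (φ q.2) (hD _ hq.2.1)
        e1 e2).1
      have h4 : p.1 = q.1 := by
        have : p.2 * p.1 = q.2 * q.1 := hpq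
        rw [h3] at this
        exact mul_left_cancel this
      exact Prod.ext h4 h3
    · intro x hx
      simp only [Finset.coe_filter, Finset.mem_univ, true_and, Set.mem_ofPred_eq] at hx
      have hg : x * (φ x)⁻¹ ≠ 1 := by
        intro h
        exact hx (mul_inv_eq_one.1 h).symm
      obtain ⟨d₁, h1, d₂, h2, h12⟩ := hexist _ hg
      have h21 : φ d₂ * (φ d₁)⁻¹ = x * (φ x)⁻¹ := by
        have h5 : φ (d₁ * d₂⁻¹) = φ (x * (φ x)⁻¹) := by rw [h12]
        rw [map_mul, map_mul, map_inv, map_inv, hφ] at h5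
        have h6 := congrArg (·⁻¹) h5
        simpa using h6
      obtain ⟨h7, h8⟩ := huniq _ hg d₁ h1 d₂ h2 (φ d₂) (hD _ h2) (φ d₁) (hD _ h1) h12 h21
      have hd : φ d₁ = d₂ := h8.symm
      refine ⟨(d₁⁻¹ * x, d₁), ?_, by simp⟩
      simp only [Finset.coe_filter, Finset.mem_product, Finset.mem_filter, Finset.mem_univ,
        true_and, Set.mem_ofPred_eq, Finset.coe_product, Set.mem_prod]
      have h9 : φ (d₁⁻¹ * x) = d₁⁻¹ * x := by
        rw [map_mul, map_inv, hd]
        have h10 : d₁ * d₂⁻¹ * φ x = x := by rw [h12]; group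
        calc d₂⁻¹ * φ x = d₁⁻¹ * (d₁ * d₂⁻¹ * φ x) := by group
          _ = d₁⁻¹ * x := by rw [h10]
      refine ⟨h9, h1, ?_⟩
      intro h
      apply hx
      have : x = d₁ * (d₁⁻¹ * x) := by group
      rw [this, map_mul, h9, h]
  rw [Finset.card_product] at hcard
  have hHcard : (univ.filter fun g : G => φ g = g).card = S a 3 := by
    rw [← hHc, Nat.card_eq_fintype_card, Fintype.card_subtype]
    congr 1
    ext g
    simp [hH]
  have h1 := Finset.card_filter_add_card_filter_not (s := (univ : Finset G)) (fun g : G => φ g = g)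
  have h2 := Finset.card_filter_add_card_filter_not (s := D) (fun g : G => φ g = g)
  rw [Finset.card_univ, ← Nat.card_eq_fintype_card, hG, hHcard] at h1
  rw [hDφ, hDc] at h2
  rw [hHcard] at hcard
  have hlt : S a 3 ≠ S b 3 := by
    intro h
    apply hne
    rw [← hHc, ← hG] at h
    exact Subgroup.eq_top_of_card_eq H h
  have s3 : ∀ n, S n 3 = 1 + n + n ^ 2 := fun n => by simp [S, Finset.sum_range_succ]
  have s2 : ∀ n, S n 2 = 1 + n := fun n => by simp [S, Finset.sum_range_succ]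
  rw [s3, s3] at hlt h1
  rw [s3] at hcard
  rw [s2, s2] at h2
  obtain ⟨k, hk⟩ : ∃ k, b = a + k := ⟨b - a, by omega⟩
  have h3 : (D.filter fun d => ¬ φ d = d).card = k := by omega
  rw [h3] at hcard
  rw [← hcard] at h1
  subst hk
  have hk0 : 0 < k := by
    rcases Nat.eq_zero_or_pos k with h | h
    · subst h; simp at hlt
    · exact h
  have h4 : k * (a ^ 2) = k * (a + k) := by nlinarith
  exact (Nat.eq_of_mul_eq_mul_left hk0 h4).symm

end Pool.Agent.T2h48.AD
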