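import Pool.Agent.T2h48.AD.Stm

/-! Task RED of project AD. -/

set_option autoImplicit false

namespace Pool.Agent.T2h48.AD

open Finset

namespace RedAux

set_option linter.unusedSectionVars false

variable {Q : Type} [CommGroup Q] [Fintype Q] [DecidableEq Q]

/-- the element `∑ f x · x` of the group ring -/
noncomputable def el {R : Type} [CommRing R] (f : Q → R) : MonoidAlgebra R Q :=
  MonoidAlgebra.ofCoeff (Finsupp.equivFunOnFinite.symm f)

lemma coeff_el {R : Type} [CommRing R] (f : Q → R) (x : Q) : (el f).coeff x = f x := by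
  simp [el, MonoidAlgebra.coeff_ofCoeff]

lemma el_coeff {R : Type} [CommRing R] (y : MonoidAlgebra R Q) : el (fun x => y.coeff x) = y := by
  ext x
  simp [coeff_el]

lemma mul_coeff {R : Type} [CommRing R] (y z : MonoidAlgebra R Q) (g : Q) :
    (y * z).coeff g = ∑ x, y.coeff x * z.coeff (x⁻¹ * g) := by
  rw [MonoidAlgebra.coeff_mul_apply_left, Finsupp.sum_fintype]
  intro i; simp

lemma eq_sum_single {R : Type} [CommRing R] (y : MonoidAlgebra R Q) :
    y = ∑ x, MonoidAlgebra.single x (y.coeff x) := by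
  ext g
  rw [MonoidAlgebra.coeff_sum, Finsupp.finsetSum_apply]
  simp [MonoidAlgebra.coeff_single, Finsupp.single_apply]

lemma pow_inj (l : ℕ) (hl : Nat.Coprime (Fintype.card Q) l) :
    Function.Injective fun g : Q => g ^ l := by
  have h := (powCoprime (G := Q) (n := l) (by rwa [Nat.card_eq_fintype_card])).injective
  intro a b hab
  exact h (by simpa using hab)

lemma base (l : ℕ) [Fact l.Prime] (hl : Nat.Coprime (Fintype.card Q) l)
    (y : MonoidAlgebra (ZMod l) Q) (hy : y * y = 0) : y = 0 := by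
  have hp : l.Prime := Fact.out
  have : CharP (MonoidAlgebra (ZMod l) Q) l := by
    refine charP_of_injective_algebraMap (R := ZMod l) ?_ l
    exact FaithfulSMul.algebraMap_injective _ _
  have hyl : y ^ l = 0 := by
    have h2 : y ^ 2 = 0 := by rw [pow_two, hy]
    exact pow_eq_zero_of_le hp.two_le h2
  have h1 : y ^ l = ∑ x, MonoidAlgebra.single (x ^ l) (y.coeff x ^ l) := by
    conv_lhs => rw [eq_sum_single y]
    rw [sum_pow_char]
    exact Finset.sum_congr rfl fun x _ => MonoidAlgebra.single_pow _ _ _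
  ext g
  have h2 : (y ^ l).coeff (g ^ l) = y.coeff g ^ l := by
    rw [h1, MonoidAlgebra.coeff_sum, Finsupp.finsetSum_apply]
    rw [Finset.sum_eq_single g]
    · simp [MonoidAlgebra.coeff_single]
    · intro b _ hb
      rw [MonoidAlgebra.coeff_single, Finsupp.single_apply, if_neg]
      intro h
      exact hb (pow_inj l hl h)
    · intro h; exact absurd (Finset.mem_univ _) h
  rw [hyl] at h2
  have : y.coeff g ^ l = 0 := by rw [← h2]; simp
  simpa using pow_eq_zero_iff hp.ne_zero |>.1 this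

/-- a prime dividing the square of an element divides the element -/
lemma prime_dvd (l : ℕ) (hp : l.Prime) (hl : Nat.Coprime (Fintype.card Q) l)
    (y : MonoidAlgebra ℤ Q) (hy : ∀ g, (l : ℤ) ∣ (y * y).coeff g) :
    ∃ z : MonoidAlgebra ℤ Q, y = (l : ℤ) • z := by
  have : Fact l.Prime := ⟨hp⟩
  let y' : MonoidAlgebra (ZMod l) Q := el fun x => ((y.coeff x : ℤ) : ZMod l)
  have h : y' * y' = 0 := by
    ext g
    rw [mul_coeff]
    simp only [y', coeff_el]
    have h1 := hy g
    rw [mul_coeff, ← ZMod.intCast_zmod_eq_zero_iff_dvd] at h1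
    push_cast at h1
    simpa using h1
  have h0 := base l hl y' h
  have h2 : ∀ x, (l : ℤ) ∣ y.coeff x := by
    intro x
    rw [← ZMod.intCast_zmod_eq_zero_iff_dvd]
    have : y'.coeff x = 0 := by rw [h0]; simp
    simpa [y', coeff_el] using this
  choose z hz using h2
  refine ⟨el z, ?_⟩
  ext x
  rw [MonoidAlgebra.coeff_smul_apply, coeff_el, smul_eq_mul, hz]

lemma smul_mul_smul_coeff (c : ℤ) (z : MonoidAlgebra ℤ Q) (g : Q) :
    ((c • z) * (c • z)).coeff g = c ^ 2 * (z * z).coeff g := by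
  rw [smul_mul_smul_comm, MonoidAlgebra.coeff_smul_apply, smul_eq_mul, pow_two]

lemma sq_dvd (c : ℕ) : c ≠ 0 → Nat.Coprime (Fintype.card Q) c → ∀ y : MonoidAlgebra ℤ Q,
    (∀ g, (c : ℤ) ^ 2 ∣ (y * y).coeff g) → ∃ z : MonoidAlgebra ℤ Q, y = (c : ℤ) • z := by
  induction c using Nat.recOnMul with
  | zero => intro h; exact absurd rfl h
  | one => intro _ _ y _; exact ⟨y, by simp⟩
  | prime p hp =>
    intro _ hc y hy
    refine prime_dvd p hp hc y fun g => (dvd_pow_self _ two_ne_zero).trans (hy g)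
  | mul a b iha ihb =>
    intro h0 hc y hy
    have ha : a ≠ 0 := fun h => h0 (by simp [h])
    have hb : b ≠ 0 := fun h => h0 (by simp [h])
    obtain ⟨z, hz⟩ := iha ha (hc.coprime_dvd_right (dvd_mul_right _ _)) y fun g =>
      (by push_cast; rw [mul_pow]; exact dvd_mul_right _ _ :
        (a : ℤ) ^ 2 ∣ ((a * b : ℕ) : ℤ) ^ 2).trans (hy g)
    have hz2 : ∀ g, (b : ℤ) ^ 2 ∣ (z * z).coeff g := by
      intro g
      have := hy g
      rw [hz, smul_mul_smul_coeff] at this
      push_cast at this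
      rw [mul_pow] at this
      exact Int.dvd_of_mul_dvd_mul_left (by positivity) this |> fun h => h
    obtain ⟨v, hv⟩ := ihb hb (hc.coprime_dvd_right (dvd_mul_left _ _)) z hz2
    exact ⟨v, by rw [hz, hv, smul_smul]; push_cast; rfl⟩

end RedAux

open RedAux

/-- task RED -/
theorem t_RED : S_RED := by
  intro Q _ _ _ r N μ hN hcop hcard hr
  classical
  set w : ℤ := (Fintype.card Q : ℤ) with hw
  set k : ℤ := ∑ x, r x with hk
  -- `k ^ 2 = N + μ w`
  have hsum : ∀ x : Q, ∑ g, r (x⁻¹ * g) = k := fun x =>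
    Fintype.sum_equiv (Equiv.mulLeft x⁻¹) _ _ fun g => by simp
  have hk2 : k ^ 2 = N + μ * w := by
    have h1 : ∑ g, ∑ x, r x * r (x⁻¹ * g) = ∑ g : Q, ((if g = 1 then N else 0) + μ) :=
      Finset.sum_congr rfl fun g _ => hr g
    rw [Finset.sum_comm] at h1
    simp only [← Finset.mul_sum, hsum, ← Finset.sum_mul] at h1
    rw [Finset.sum_add_distrib] at h1
    simp only [Finset.sum_ite_eq', Finset.mem_univ, if_true, Finset.sum_const, Finset.card_univ,
      nsmul_eq_mul] at h1
    rw [← hk, ← hw] at h1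
    linarith
  -- the element `X`
  let X : MonoidAlgebra ℤ Q := el fun x => w * r x - k
  have hX : ∀ g, (X * X).coeff g = w * N * ((if g = 1 then w else 0) - 1) := by
    intro g
    rw [mul_coeff]
    simp only [X, coeff_el]
    have h1 : ∀ x : Q, (w * r x - k) * (w * r (x⁻¹ * g) - k) =
        w ^ 2 * (r x * r (x⁻¹ * g)) - w * k * r x - w * k * r (x⁻¹ * g) + k ^ 2 := fun x => by ring
    simp only [h1]
    rw [Finset.sum_add_distrib, Finset.sum_sub_distrib, Finset.sum_sub_distrib, ← Finset.mul_sum,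
      ← Finset.mul_sum, ← Finset.mul_sum, hr g]
    have h2 : ∑ x : Q, r (x⁻¹ * g) = k :=
      Fintype.sum_equiv ((Equiv.inv Q).trans (Equiv.mulRight g)) _ _ fun x => by simp
    rw [h2, ← hk]
    simp only [Finset.sum_const, Finset.card_univ, nsmul_eq_mul]
    rw [← hw, hk2]
    split_ifs <;> ring_nf
    all_goals nlinarith [hk2]
  -- the square part
  obtain ⟨n, hn⟩ : ∃ n : ℕ, N = n := ⟨N.toNat, by omega⟩
  obtain ⟨s, c, hsc, hsq⟩ := Nat.sq_mul_squarefree n
  have hn0 : n ≠ 0 := by rintro rfl; simp at hn; omega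
  have hc0 : c ≠ 0 := by rintro rfl; simp at hsc; exact hn0 hsc.symm
  have hcopn : Nat.Coprime (Fintype.card Q) n := by
    rw [hn, hw] at hcop
    exact Nat.isCoprime_iff_coprime.1 hcop
  have hcc : Nat.Coprime (Fintype.card Q) c :=
    hcopn.coprime_dvd_right ⟨c * s, by rw [← hsc]; ring⟩
  have hNcs : N = (c : ℤ) ^ 2 * s := by rw [hn, ← hsc]; push_cast; rfl
  obtain ⟨Y, hY⟩ := sq_dvd c hc0 hcc X fun g => by
    rw [hX, hNcs]
    exact ⟨w * s * ((if g = 1 then w else 0) - 1), by ring⟩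
  have hY2 : ∀ g, (Y * Y).coeff g = w * s * ((if g = 1 then w else 0) - 1) := by
    intro g
    have h1 := hX g
    rw [hY, smul_mul_smul_coeff, hNcs] at h1
    have hc2 : (c : ℤ) ^ 2 ≠ 0 := by positivity
    apply mul_left_cancel₀ hc2
    rw [h1]; ring
  have hs1 : s = 1 := by
    by_contra hs1
    obtain ⟨l, hl, hls⟩ := Nat.exists_prime_and_dvd hs1
    have hln : l ∣ n := hls.trans ⟨c ^ 2, by rw [← hsc]; ring⟩
    have hlw : Nat.Coprime (Fintype.card Q) l := hcopn.coprime_dvd_right hln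
    obtain ⟨Z, hZ⟩ := prime_dvd l hl hlw Y fun g => by
      rw [hY2]
      exact dvd_mul_of_dvd_left (dvd_mul_of_dvd_right (Int.natCast_dvd_natCast.2 hls) _) _
    obtain ⟨g, hg⟩ : ∃ g : Q, g ≠ 1 := by
      have : Nontrivial Q := Fintype.one_lt_card_iff_nontrivial.1 (by omega)
      exact exists_ne 1
    have h1 := hY2 g
    rw [hZ, smul_mul_smul_coeff, if_neg hg] at h1
    have h2 : (l : ℤ) ^ 2 ∣ w * s := by
      refine ⟨-(Z * Z).coeff g, ?_⟩
      linarith
    have h3 : l ^ 2 ∣ Fintype.card Q * s := by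
      have : ((l ^ 2 : ℕ) : ℤ) ∣ ((Fintype.card Q * s : ℕ) : ℤ) := by push_cast; exact h2
      exact_mod_cast this
    have h4 : l ^ 2 ∣ s := (Nat.Coprime.pow_left 2 hlw.symm).dvd_of_dvd_mul_left h3
    have h5 := hsq l (by rwa [← pow_two])
    exact hl.one_lt.ne' (Nat.isUnit_iff.1 h5)
  refine ⟨c, by rw [hNcs, hs1]; simp, ?_⟩
  have hXc : ∀ x, w * r x - k = c * Y.coeff x := by
    intro x
    have : X.coeff x = w * r x - k := coeff_el _ _
    rw [← this, hY, MonoidAlgebra.coeff_smul_apply, smul_eq_mul]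
  intro x y
  have h1 : (c : ℤ) ∣ w * (r x - r y) := ⟨Y.coeff x - Y.coeff y, by
    have := hXc x; have := hXc y; linarith⟩
  have h2 : IsCoprime (c : ℤ) w := by
    rw [hw]; exact (Nat.isCoprime_iff_coprime.2 hcc).symm
  exact h2.dvd_of_dvd_mul_left h1

end Pool.Agent.T2h48.AD
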