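import Pool.Agent.T2h48.AD.Stm

set_option autoImplicit false

namespace Pool.Agent.T2h48.AD

open Finset

theorem t_SUMQ : S_SUMQ := by
  intro Q _ _ _ r k₁ k₂ c μ w hw hw2 hc hr1 hsum hev hdvd hsq hk2 hlt
  choose u hu using hdvd
  have hr : ∀ x, r x = k₁ + c * u x := fun x => by rw [← hr1, ← hu x]; ring
  have hu1 : u 1 = 0 := by
    have := hu 1
    rw [sub_self] at this
    rcases mul_eq_zero.1 this.symm with h | h
    · omega
    · exact h
  have huev : ∀ x, u x⁻¹ = u x := by
    intro x
    have h1 := hr x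
    have h2 := hr x⁻¹
    rw [hev x, h1] at h2
    have h3 : c * (u x⁻¹ - u x) = 0 := by linarith
    rcases mul_eq_zero.1 h3 with h | h
    · omega
    · linarith
  set U := ∑ x, u x with hU
  set V := ∑ x, u x ^ 2 with hV
  have hU1 : k₂ = w * k₁ + c * U := by
    rw [← hsum, hU, Finset.mul_sum, Finset.sum_congr rfl (fun x _ => hr x),
      Finset.sum_add_distrib, Finset.sum_const, Finset.card_univ, nsmul_eq_mul, hw]
  have hV1 : w * k₁ ^ 2 + 2 * k₁ * c * U + c ^ 2 * V = c ^ 2 + μ := by
    rw [← hsq]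
    have : ∀ x, r x ^ 2 = k₁ ^ 2 + (2 * k₁ * c * u x + c ^ 2 * u x ^ 2) := fun x => by
      rw [hr x]; ring
    rw [Finset.sum_congr rfl (fun x _ => this x), Finset.sum_add_distrib, Finset.sum_add_distrib,
      ← Finset.mul_sum, ← Finset.mul_sum, Finset.sum_const, Finset.card_univ, nsmul_eq_mul, hw]
    ring
  have hUneg : U < 0 := by
    rw [hU1] at hlt
    by_contra hcon
    push Not at hcon
    nlinarith
  have hkey : w * V = U ^ 2 + (w - 1) := by
    rw [hU1] at hk2
    have h1 : c ^ 2 * (w * V) = c ^ 2 * (U ^ 2 + (w - 1)) := by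
      have e := congrArg (fun z => w * z) hV1
      linear_combination e - hk2
    have hc0 : c ^ 2 ≠ 0 := by positivity
    exact mul_left_cancel₀ hc0 h1
  have hCS : U ^ 2 ≤ (w - 1) * V := by
    have h1 : U = ∑ x ∈ univ.erase (1 : Q), u x := by
      rw [hU, ← Finset.add_sum_erase _ _ (mem_univ (1 : Q)), hu1, zero_add]
    have h2 : ∑ x ∈ univ.erase (1 : Q), u x ^ 2 = V := by
      rw [hV, ← Finset.add_sum_erase _ _ (mem_univ (1 : Q)), hu1]; simp
    have h3 := sq_sum_le_card_mul_sum_sq (s := univ.erase (1 : Q)) (f := u)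
    rw [← h1, h2, Finset.card_erase_of_mem (mem_univ _), Finset.card_univ] at h3
    have h4 : ((Fintype.card Q - 1 : ℕ) : ℤ) = w - 1 := by
      rw [hw]
      have : 1 ≤ Fintype.card Q := by
        have := hw2; rw [hw] at this; omega
      push_cast [this]
      ring
    rwa [h4] at h3
  have hUle : U ^ 2 ≤ (w - 1) ^ 2 := by nlinarith
  have hUw : -(w - 1) ≤ U := by
    by_contra hcon
    push Not at hcon
    nlinarith
  have hT : U + w ≤ V + 2 * U + w := by
    -- ∑ (u + 1) ≤ ∑ (u + 1)^2
    have h1 : ∑ x, (u x + 1) ≤ ∑ x, (u x + 1) ^ 2 := by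
      refine Finset.sum_le_sum fun x _ => ?_
      exact Int.le_self_sq (u x + 1)
    have h2 : ∑ x, (u x + 1) = U + w := by
      rw [Finset.sum_add_distrib, Finset.sum_const, Finset.card_univ, nsmul_eq_mul, mul_one, hw]
    have h3 : ∑ x, (u x + 1) ^ 2 = V + 2 * U + w := by
      have : ∀ x, (u x + 1) ^ 2 = u x ^ 2 + (2 * u x + 1) := fun x => by ring
      rw [Finset.sum_congr rfl (fun x _ => this x), Finset.sum_add_distrib,
        Finset.sum_add_distrib, ← Finset.mul_sum, Finset.sum_const, Finset.card_univ,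
        nsmul_eq_mul, mul_one, hw]
      ring
    rw [← h2, ← h3]; exact h1
  have hprod : (U + w - 1) * (-1 - U) ≤ 0 := by nlinarith
  have hcase : U = 1 - w ∨ U = -1 := by
    rcases lt_or_ge (1 - w) U with h | h
    · right
      by_contra hne
      have h1 : U < -1 := by omega
      have h2 : 0 < (U + w - 1) * (-1 - U) := mul_pos (by linarith) (by linarith)
      linarith
    · left; omega
  rcases hcase with h | h
  · left
    rw [hU1, h]; ring
  · right
    refine ⟨by rw [hU1, h]; ring, ?_⟩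
    have hV2 : V = 1 := by
      rw [h] at hkey
      have : w * V = w * 1 := by linarith
      exact mul_left_cancel₀ (by omega) this
    have hex : ∃ x₀, u x₀ ≠ 0 := by
      by_contra hcon
      push Not at hcon
      rw [hV] at hV2
      simp [hcon] at hV2
    obtain ⟨x₀, hx₀⟩ := hex
    refine ⟨x₀, fun hx => hx₀ (by rw [hx, hu1]), ?_⟩
    by_contra hcon
    have hne : x₀ ≠ x₀⁻¹ := fun hx => hcon (by
      nth_rewrite 2 [hx]; simp)
    have h1 : ∑ x ∈ ({x₀, x₀⁻¹} : Finset Q), u x ^ 2 ≤ V :=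
      Finset.sum_le_univ_sum_of_nonneg fun x => sq_nonneg _
    rw [Finset.sum_pair hne, huev, hV2] at h1
    have h2 : 1 ≤ u x₀ ^ 2 := by
      have : 0 < u x₀ ^ 2 := by positivity
      omega
    omega

end Pool.Agent.T2h48.AD
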