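import Pool.Agent.T2h48.AD.Stm
import Pool.Agent.T2h48.DW.Defs

/-!
# Project AD: from formulas to groups
-/

set_option autoImplicit false

namespace Pool.Agent.T2h48.AD

open Pool.Agent.T2h48.DW Finset

section field
variable {F K K' : Type} [Field F] [Field K] [Finite K] [Algebra F K] [Field K'] [Finite K'] [Algebra F K']

/-- the Frobenius of a quadratic extension -/
theorem exists_sigma (j : K →ₐ[F] K') (hcard : Nat.card K' = Nat.card K ^ 2) :
    ∃ σ : K' →ₐ[F] K', (∀ x, σ (σ x) = x) ∧ ∀ x, σ x = x ↔ x ∈ Set.range j := by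
  classical
  have := Fintype.ofFinite K
  have := Fintype.ofFinite K'
  letI : Algebra K K' := j.toRingHom.toAlgebra
  have htow : IsScalarTower F K K' := IsScalarTower.of_algebraMap_eq fun x => (j.commutes x).symm
  let σ : K' →ₐ[F] K' := (FiniteField.frobeniusAlgHom K K').restrictScalars F
  have hσ : ∀ x, σ x = x ^ Nat.card K := by
    intro x
    rw [Nat.card_eq_fintype_card]
    rfl
  refine ⟨σ, ?_, ?_⟩
  · intro x
    rw [hσ, hσ, ← pow_mul, ← pow_two, ← hcard, Nat.card_eq_fintype_card, FiniteField.pow_card]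
  · intro x
    constructor
    · intro h
      have h1 : x ∈ (⊥ : IntermediateField K K') := by
        rw [IsGalois.mem_bot_iff_fixed]
        intro g
        obtain ⟨p, hp⟩ := CharP.exists K
        have hpp : Fact p.Prime := ⟨CharP.char_is_prime K p⟩
        obtain ⟨i, hi⟩ := FiniteField.exists_forall_apply_eq_pow K p K' g
        rw [hi]
        rw [hσ] at h
        clear hi
        induction i with
        | zero => rw [pow_zero, pow_one]
        | succ i ih => rw [pow_succ, pow_mul, ih, h]
      obtain ⟨y, hy⟩ := IntermediateField.mem_bot.1 h1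
      exact ⟨y, hy⟩
    · rintro ⟨y, rfl⟩
      rw [hσ, ← map_pow, Nat.card_eq_fintype_card, FiniteField.pow_card]

omit [Finite K] [Finite K'] in
/-- formulas and embeddings -/
theorem holds_map {n : ℕ} (φ : QF F n) (j : K →ₐ[F] K') (x : Fin n → K) :
    φ.Holds (fun i => j (x i)) ↔ φ.Holds x := by
  induction φ with
  | eq f =>
    show MvPolynomial.aeval (fun i => j (x i)) f = 0 ↔ MvPolynomial.aeval x f = 0
    have h : MvPolynomial.aeval (fun i => j (x i)) f = j (MvPolynomial.aeval x f) :=
      (MvPolynomial.comp_aeval_apply x j f).symm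
    rw [h]
    exact map_eq_zero_iff j (RingHom.injective (j : K →+* K'))
  | neg φ ih => exact not_congr ih
  | and φ ψ h1 h2 => exact and_congr h1 h2

end field

/-- the points of the formula `G` with coordinates in `K` -/
abbrev Pt {F : Type} [Field F] {a : ℕ} (G : QF F a) (K : Type) [Field K] [Algebra F K] : Type :=
  {x : Fin a → K // G.Holds x}

/-- `D(K)` is a difference set with the Singer parameters of `(n, m)` in the group `G(K)` (abelian if
`m ≠ 3`), whose multiplication has the graph `M(K)`. -/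
def IsSinger {F : Type} [Field F] {a : ℕ} (G : QF F a) (M : QF F (a + a + a)) (D : QF F a)
    (K : Type) [Field K] [Algebra F K] (n m : ℕ) : Prop :=
  ∃ _ : Group (Pt G K),
    (∀ x y z : Pt G K, M.Holds (Fin.append (Fin.append x.1 y.1) z.1) ↔ x * y = z) ∧
    (m = 3 ∨ ∀ x y : Pt G K, x * y = y * x) ∧
    Nat.card (Pt G K) * (n - 1) = n ^ m - 1 ∧
    Nat.card {x : Pt G K // D.Holds x.1} * (n - 1) = n ^ (m - 1) - 1 ∧
    ∀ g : Pt G K, g ≠ 1 →
      Nat.card {p : Pt G K × Pt G K // D.Holds p.1.1 ∧ D.Holds p.2.1 ∧ p.1 * p.2⁻¹ = g} * (n - 1) =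
        n ^ (m - 2) - 1

theorem S_mul {n : ℕ} (hn : 2 ≤ n) (i : ℕ) : S n i * (n - 1) = n ^ i - 1 := by
  have h := Nat.geomSum_eq hn i
  have h1 : n - 1 ∣ n ^ i - 1 := by
    have := Nat.sub_dvd_pow_sub_pow n 1 i
    rwa [one_pow] at this
  unfold S
  rw [h, Nat.div_mul_cancel h1]

theorem eq_S {n c i : ℕ} (hn : 2 ≤ n) (h : c * (n - 1) = n ^ i - 1) : c = S n i := by
  rw [← S_mul hn] at h
  exact Nat.eq_of_mul_eq_mul_right (by omega) h

theorem S_lt {a b i : ℕ} (h : a < b) (hi : 2 ≤ i) : S a i < S b i := by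
  unfold S
  refine Finset.sum_lt_sum (fun j _ => Nat.pow_le_pow_left h.le j) ⟨1, ?_, ?_⟩
  · rw [Finset.mem_range]; omega
  · rwa [pow_one, pow_one]

section step
variable {F K K' : Type} [Field F] [Field K] [Finite K] [Algebra F K] [Field K'] [Finite K'] [Algebra F K']

theorem append_map {a : ℕ} {A B : Type} (f : A → B) (x y z : Fin a → A) :
    Fin.append (Fin.append (fun i => f (x i)) (fun i => f (y i))) (fun i => f (z i)) =
      fun i => f (Fin.append (Fin.append x y) z i) := by
  funext l
  refine Fin.addCases (fun l => ?_) (fun l => ?_) l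
  · rw [Fin.append_left, Fin.append_left]
    refine Fin.addCases (fun l => ?_) (fun l => ?_) l
    · rw [Fin.append_left, Fin.append_left]
    · rw [Fin.append_right, Fin.append_right]
  · rw [Fin.append_right, Fin.append_right]

/-- the quadratic extension -/
theorem quad (hA : S_ABEL) (hP : S_PLANE) {a : ℕ} {G : QF F a} {M : QF F (a + a + a)} {D : QF F a}
    (j : K →ₐ[F] K') (hcard : Nat.card K' = Nat.card K ^ 2) {n n' m : ℕ} (hm : 3 ≤ m) (hn : 2 ≤ n)
    (hn' : 2 ≤ n') (h : IsSinger G M D K n m) (h' : IsSinger G M D K' n' m) :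
    (n' = n ∨ n' = n ^ 2) ∧ S n m ∣ S n' m := by
  classical
  obtain ⟨σ, hσ, hσj⟩ := exists_sigma j hcard
  obtain ⟨iG, hM, -, hv, hk, -⟩ := h
  obtain ⟨iG', hM', hab', hv', hk', hl'⟩ := h'
  have hfK : Finite (Pt G K) := Subtype.finite
  have hfK' : Finite (Pt G K') := Subtype.finite
  -- the embedding
  let ι : Pt G K →* Pt G K' := MonoidHom.mk' (fun x => ⟨fun i => j (x.1 i), (holds_map G j x.1).2 x.2⟩)
    (by
      intro x y
      symm
      rw [← hM']
      show M.Holds (Fin.append (Fin.append (fun i => j (x.1 i)) (fun i => j (y.1 i)))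
        (fun i => j ((x * y).1 i)))
      rw [append_map, holds_map M j, hM])
  have hι : Function.Injective ι := by
    intro x y hxy
    apply Subtype.ext
    funext i
    exact RingHom.injective (j : K →+* K') (congrFun (congrArg Subtype.val hxy) i)
  -- the Frobenius
  let φ : Pt G K' →* Pt G K' := MonoidHom.mk' (fun x => ⟨fun i => σ (x.1 i), (holds_map G σ x.1).2 x.2⟩)
    (by
      intro x y
      symm
      rw [← hM']
      show M.Holds (Fin.append (Fin.append (fun i => σ (x.1 i)) (fun i => σ (y.1 i)))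
        (fun i => σ ((x * y).1 i)))
      rw [append_map, holds_map M σ, hM'])
  have hφφ : ∀ g, φ (φ g) = g := by
    intro g
    apply Subtype.ext
    funext i
    exact hσ (g.1 i)
  have hfix : ∀ g, φ g = g ↔ g ∈ ι.range := by
    intro g
    constructor
    · intro hg
      have h1 : ∀ i, g.1 i ∈ Set.range j := by
        intro i
        rw [← hσj]
        exact congrFun (congrArg Subtype.val hg) i
      choose x hx using h1
      have h2 : (fun i => j (x i)) = g.1 := funext hx
      refine ⟨⟨x, ?_⟩, ?_⟩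
      · rw [← holds_map G j, h2]
        exact g.2
      · apply Subtype.ext
        exact h2
    · rintro ⟨x, rfl⟩
      apply Subtype.ext
      funext i
      exact (hσj _).2 ⟨x.1 i, rfl⟩
  have := Fintype.ofFinite (Pt G K')
  let D' : Finset (Pt G K') := Finset.univ.filter fun x => D.Holds x.1
  have hD' : ∀ x, x ∈ D' ↔ D.Holds x.1 := fun x => by simp [D']
  have hDφ : ∀ g, g ∈ D' → φ g ∈ D' := by
    intro g hg
    rw [hD'] at hg ⊢
    exact (holds_map D σ g.1).2 hg
  have c1 : Nat.card (Pt G K') = S n' m := eq_S hn' hv'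
  have c2 : D'.card = S n' (m - 1) := by
    rw [← eq_S hn' hk', Nat.card_eq_fintype_card, Fintype.card_subtype]
  have c3 : ∀ g : Pt G K', g ≠ 1 →
      ((D' ×ˢ D').filter fun p : Pt G K' × Pt G K' => p.1 * p.2⁻¹ = g).card = S n' (m - 2) := by
    intro g hg
    rw [← eq_S hn' (hl' g hg), Nat.card_eq_fintype_card, Fintype.card_subtype]
    congr 1
    ext p
    simp [D', and_assoc]
  have c4 : Nat.card ι.range = S n m := by
    rw [← eq_S hn hv]
    exact (Nat.card_congr (MonoidHom.ofInjective hι).toEquiv).symm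
  have c5 : ({d ∈ D' | φ d = d} : Finset (Pt G K')).card = S n (m - 1) := by
    rw [← eq_S hn hk]
    have h1 : ({d ∈ D' | φ d = d} : Finset (Pt G K')) =
        (Set.range fun x : {x : Pt G K // D.Holds x.1} => ι x.1).toFinset := by
      ext g
      rw [Finset.mem_filter, hD', hfix, Set.mem_toFinset]
      constructor
      · rintro ⟨h1, x, rfl⟩
        exact ⟨⟨x, (holds_map D j x.1).1 h1⟩, rfl⟩
      · rintro ⟨x, rfl⟩
        exact ⟨(holds_map D j x.1.1).2 x.2, x.1, rfl⟩
    rw [h1, ← Nat.card_eq_card_toFinset]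
    exact Nat.card_range_of_injective fun x y hxy => Subtype.ext (hι hxy)
  refine ⟨?_, by rw [← c4, ← c1]; exact Subgroup.card_subgroup_dvd_card _⟩
  by_cases htop : ι.range = ⊤
  · left
    have h1 : Nat.card ι.range = Nat.card (Pt G K') := by
      rw [htop]
      exact Nat.card_congr Subgroup.topEquiv.toEquiv
    rw [c4, c1] at h1
    rcases lt_trichotomy n' n with h2 | h2 | h2
    · exact absurd h1 (S_lt h2 (by omega)).ne'
    · exact h2
    · exact absurd h1 (S_lt h2 (by omega)).ne
  · right
    rcases hab' with rfl | hab'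
    · exact hP (Pt G K') φ D' ι.range n n' hφφ hDφ (fun g => (hfix g).symm) htop hn hn' c1 c2
        (fun g hg => by
          rw [c3 g hg]
          simp [S]) c4 c5
    · let _ : CommGroup (Pt G K') := { iG' with mul_comm := hab' }
      exact hA (Pt G K') φ D' ι.range n n' m hφφ hDφ (fun g => (hfix g).symm) htop hm hn hn' c1 c2
        c3 c4 c5

end step

end Pool.Agent.T2h48.AD
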