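import Pool.Agent.T2h48.AD.Alg
import Pool.Agent.T2h48.LP.Stm

/-!
# Project AD: the tower of the quadratic extensions
-/

set_option autoImplicit false

namespace Pool.Agent.T2h48.AD

open Pool.Agent.T2h48.DW Finset

section
variable {F K K' : Type} [Field F] [Field K] [Finite K] [Algebra F K] [Field K'] [Finite K'] [Algebra F K']

omit [Finite K] [Finite K'] in
theorem card_iso {n : ℕ} (φ : QF F n) (j : K ≃ₐ[F] K') :
    Nat.card {x : Fin n → K // φ.Holds x} = Nat.card {x : Fin n → K' // φ.Holds x} := by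
  refine Nat.card_congr
    { toFun := fun x => ⟨fun i => j (x.1 i), (holds_map φ (j : K →ₐ[F] K') x.1).2 x.2⟩
      invFun := fun x => ⟨fun i => j.symm (x.1 i), (holds_map φ (j.symm : K' →ₐ[F] K) x.1).2 x.2⟩
      left_inv := fun x => Subtype.ext (funext fun i => j.symm_apply_apply _)
      right_inv := fun x => Subtype.ext (funext fun i => j.apply_symm_apply _) }

omit [Finite K] in
theorem card_G {a : ℕ} {G : QF F a} {M : QF F (a + a + a)} {D : QF F a} {n m : ℕ} (hn : 2 ≤ n)
    (h : IsSinger G M D K n m) : Nat.card {x : Fin a → K // G.Holds x} = S n m := by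
  obtain ⟨iG, hM, -, hv, hk, -⟩ := h
  exact eq_S hn hv

omit [Finite K] in
theorem card_D {a : ℕ} {G : QF F a} {M : QF F (a + a + a)} {D : QF F a} {n m : ℕ} (hn : 2 ≤ n)
    (h : IsSinger G M D K n m) : Nat.card {x : Fin a → K // (QF.and G D).Holds x} = S n (m - 1) := by
  obtain ⟨iG, hM, -, hv, hk, -⟩ := h
  rw [← eq_S hn hk]
  exact Nat.card_congr
    { toFun := fun x => ⟨⟨x.1, x.2.1⟩, x.2.2⟩
      invFun := fun x => ⟨x.1.1, x.1.2, x.2⟩
      left_inv := fun x => rfl
      right_inv := fun x => rfl }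

end

theorem S_inj {a b i : ℕ} (hi : 2 ≤ i) (h : S a i = S b i) : a = b := by
  rcases lt_trichotomy a b with h2 | h2 | h2
  · exact absurd h (S_lt h2 hi).ne
  · exact h2
  · exact absurd h (S_lt h2 hi).ne'

theorem S_le {n : ℕ} (hn : 2 ≤ n) (i : ℕ) : S n i ≤ n ^ i := by
  have h := S_mul hn i
  have h1 : S n i * 1 ≤ S n i * (n - 1) := Nat.mul_le_mul_left _ (by omega)
  omega

theorem main (hA : S_ABEL) (hP : S_PLANE) (hE : S_EVEN) (hL : S_LIM) (hF : LP.S_FORM)
    {F : Type} [Field F] [Finite F] {a : ℕ} (G : QF F a) (M : QF F (a + a + a)) (D : QF F a)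
    (m : ℕ) (hm : 3 ≤ m)
    (h : ∀ (s : ℕ) (K : Type) [Field K] [Finite K] [Algebra F K], Module.finrank F K = 2 ^ s →
      ∃ n, 2 ≤ n ∧ IsSinger G M D K n m)
    (hinf : ∀ B : ℕ, ∃ (s : ℕ) (K : Type) (_ : Field K) (_ : Finite K) (_ : Algebra F K),
      Module.finrank F K = 2 ^ s ∧ B < Nat.card (Pt G K)) :
    Odd m ∧ ∀ (s : ℕ) (K : Type) [Field K] [Finite K] [Algebra F K], Module.finrank F K = 2 ^ s →
      ∀ n, 2 ≤ n → IsSinger G M D K n m → ∃ w, n = Nat.card K ^ w := by
  classical
  obtain ⟨p, hp⟩ := CharP.exists F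
  have hpp : Fact p.Prime := ⟨CharP.char_is_prime F p⟩
  let K : ℕ → Type := fun s => FiniteField.Extension F p (2 ^ s)
  have hne : ∀ s, NeZero (2 ^ s) := fun s => ⟨by positivity⟩
  have hfin : ∀ s, Finite (K s) := fun s => by
    have := hne s
    exact Module.finite_of_finite F
  have hrank : ∀ s, Module.finrank F (K s) = 2 ^ s := fun s => by
    have := hne s
    exact FiniteField.finrank_extension F p (2 ^ s)
  have hcard : ∀ s, Nat.card (K s) = Nat.card F ^ (2 ^ s) := fun s => by
    have := hne s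
    exact FiniteField.natCard_extension F p (2 ^ s)
  choose N hN2 hN using fun s => h s (K s) (hrank s)
  have hstep : ∀ s, (N (s + 1) = N s ∨ N (s + 1) = N s ^ 2) ∧ S (N s) m ∣ S (N (s + 1)) m := by
    intro s
    obtain ⟨j⟩ := FiniteField.nonempty_algHom_of_finrank_dvd (F := F) (K := K s) (L := K (s + 1)) (by
      rw [hrank, hrank]
      exact pow_dvd_pow 2 (by omega))
    exact quad hA hP j (by rw [hcard, hcard, ← pow_mul, ← pow_succ]) hm (hN2 s) (hN2 (s + 1)) (hN s)
      (hN (s + 1))
  have hunb : ∀ B, ∃ s, B < N s := by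
    intro B
    obtain ⟨s, K', iF, iK, iA, hK', hB⟩ := hinf (B ^ m)
    refine ⟨s, ?_⟩
    have e : K' ≃ₐ[F] K s := by
      have := hne s
      exact FiniteField.algEquivExtension F p (2 ^ s) K' hK'
    have h1 := card_iso G e
    rw [card_G (hN2 s) (hN s)] at h1
    by_contra h2
    push Not at h2
    have h3 : Nat.card (Pt G K') ≤ B ^ m := by
      rw [h1]
      exact (S_le (hN2 s) m).trans (Nat.pow_le_pow_left h2 m)
    omega
  refine ⟨?_, ?_⟩
  · -- `m` is odd
    by_contra hodd
    have h1 : ∀ s, N s = N 0 := by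
      intro s
      induction s with
      | zero => rfl
      | succ s ih =>
        rcases (hstep s).1 with h2 | h2
        · rw [h2, ih]
        · exfalso
          have h3 := (hstep s).2
          rw [h2] at h3
          exact hodd (hE (N s) m (hN2 s) (by omega) h3)
    obtain ⟨s, hs⟩ := hunb (N 0)
    rw [h1 s] at hs
    exact lt_irrefl _ hs
  · intro s₀ F' _ _ _ hF' n hn hnF
    have e : F' ≃ₐ[F] K s₀ := by
      have := hne s₀
      exact FiniteField.algEquivExtension F p (2 ^ s₀) F' hF'
    have hcF' : Nat.card F' = Nat.card F ^ (2 ^ s₀) := by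
      rw [Nat.card_congr e.toEquiv, hcard]
    have hn0 : N s₀ = n := by
      have h1 := card_iso G e
      rw [card_G (hN2 s₀) (hN s₀), card_G hn hnF] at h1
      exact (S_inj (by omega) h1).symm
    have hq : 2 ≤ Nat.card F' := Finite.one_lt_card
    have hmono : ∀ s, N s ≤ N (s + 1) := by
      intro s
      rcases (hstep s).1 with h2 | h2
      · rw [h2]
      · rw [h2]
        exact Nat.le_self_pow (by norm_num) _
    have hmono' : ∀ s t, N s ≤ N (s + t) := by
      intro s t
      induction t with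
      | zero => rfl
      | succ t ih => exact ih.trans (hmono (s + t))
    -- the group
    have key : ∀ (i : ℕ) (ψ : QF F a), 1 ≤ i →
        (∀ s, Nat.card {x : Fin a → K s // ψ.Holds x} = S (N s) (i + 1)) →
        ∃ d, n ^ i = Nat.card F' ^ d := by
      intro i ψ hi hψ
      obtain ⟨e, C, he, hC⟩ := hF F a ψ
      refine hL (Nat.card F') n i e C (fun j => N (s₀ + j)) hq hn hi he hn0
        (fun s => (hstep (s₀ + s)).1) ?_ ?_
      · intro B
        obtain ⟨s, hs⟩ := hunb B
        refine ⟨s, lt_of_lt_of_le hs ?_⟩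
        rw [add_comm]
        exact hmono' s s₀
      intro s
      have := hfin (s₀ + s)
      obtain ⟨h', d, h1, h2, h3, h4⟩ := hC (K (s₀ + s))
      have h5 : Nat.card F' ^ 2 ^ s = Nat.card F ^ 2 ^ (s₀ + s) := by
        rw [hcF', ← pow_mul, ← pow_add]
      rw [hψ (s₀ + s)] at h3 h4
      rw [hcard (s₀ + s)] at h4
      rw [h5]
      exact ⟨h', d, h1, h2, h3, h4⟩
    obtain ⟨d, hd⟩ := key (m - 1) G (by omega) (fun s => by
      rw [Nat.sub_add_cancel (by omega)]
      exact card_G (hN2 s) (hN s))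
    obtain ⟨d', hd'⟩ := key (m - 2) (QF.and G D) (by omega) (fun s => by
      rw [card_D (hN2 s) (hN s)]
      congr 1
      omega)
    have h1 : n * Nat.card F' ^ d' = Nat.card F' ^ d := by
      rw [← hd, ← hd', ← pow_succ']
      congr 1
      omega
    have h2 : d' ≤ d := by
      by_contra h3
      push Not at h3
      have h4 : Nat.card F' ^ d < Nat.card F' ^ d' := Nat.pow_lt_pow_right (by omega) h3
      have h5 : 1 * Nat.card F' ^ d' ≤ n * Nat.card F' ^ d' := Nat.mul_le_mul_right _ (by omega)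
      omega
    refine ⟨d - d', ?_⟩
    have h3 : Nat.card F' ^ d = Nat.card F' ^ (d - d') * Nat.card F' ^ d' := by
      rw [← pow_add]
      congr 1
      omega
    rw [h3] at h1
    exact Nat.eq_of_mul_eq_mul_right (by positivity) h1

end Pool.Agent.T2h48.AD
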