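import Mathlib

/-!
# Project AD: algebraic difference sets with Singer parameters (MP_79499b_co)

Statements of the tasks that need only Mathlib.

Let `D` be an algebraic difference set in an algebraic group over a finite field `K`, also over the quadratic
extension `K'`. The Frobenius `φ` of `K' / K` is an involutory automorphism of `G = G(K')` which fixes `D(K')`;
its fixed group is `H = G(K)`. The orders are `b` over `K'` and `a` over `K`. It is shown that `b = a ^ 2`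
(ABEL: `G` abelian, all `m`; PLANE: all `G`, `m = 3`).
-/

set_option autoImplicit false

namespace Pool.Agent.T2h48.AD

open Finset

/-- `1 + n + ... + n ^ (i - 1) = (n ^ i - 1) / (n - 1)` -/
def S (n i : ℕ) : ℕ := ∑ j ∈ range i, n ^ j

/-- **RED**. Let `w = #Q`, `k = ∑ r`, `R = ∑ r x · x` in the ring `ℤ[Q]` and `E = w - ∑ x`. Then
`k ^ 2 = N + μ w`, and `X = w R - k ∑ x` satisfies `X ^ 2 = w N E`. For a prime `l ∣ N` (so `l ∤ w`): if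
`l ∣ X ^ 2` then `l ∣ X` (in `𝔽_l[Q]`, commutative of characteristic `l`, `X ^ l = ∑ X_g g ^ l`, and
`g ↦ g ^ l` is injective as `l ∤ #Q`; `X ^ 2 = 0` implies `X ^ l = 0`). So if `l ^ (2 t)` or `l ^ (2 t - 1)` divides
`X ^ 2` then `l ^ t ∣ X`. If the exponent of `l` in `N` were odd, `= 2 t - 1`, then `l ^ (2 t) ∣ X ^ 2 = w N E`, but
the coefficient of `E` at an element `g ≠ 1` is `- 1`, a contradiction. So `N = c ^ 2` and `c ∣ X`, i.e.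
`c ∣ w r x - k` for all `x`, and `c` is coprime to `w`. -/
def S_RED : Prop :=
  ∀ (Q : Type) [CommGroup Q] [Fintype Q] [DecidableEq Q] (r : Q → ℤ) (N μ : ℤ), 1 ≤ N →
    IsCoprime (Fintype.card Q : ℤ) N → 2 ≤ Fintype.card Q →
    (∀ g : Q, ∑ x, r x * r (x⁻¹ * g) = (if g = 1 then N else 0) + μ) →
    ∃ c : ℕ, (c : ℤ) ^ 2 = N ∧ ∀ x y, (c : ℤ) ∣ r x - r y

/-- **SUMQ**. `u x = (r x - r 1) / c`, `U = ∑ u = (k₂ - w k₁) / c < 0`, `w ∑ u ^ 2 = U ^ 2 + (w - 1)`. By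
Cauchy–Schwarz over `x ≠ 1` (`u 1 = 0`): `U ^ 2 ≤ (w - 1) ∑ u ^ 2`, so `U ^ 2 ≤ (w - 1) ^ 2`. Let `t = u + 1`,
`T = ∑ t = U + w`, `1 ≤ T ≤ w - 1`; `w ∑ t ^ 2 = T ^ 2 + (w - 1)` and `∑ t ^ 2 ≥ T`, so `(T - 1) (w - 1 - T) ≤ 0`.
If `T = 1` the first alternative holds. If `T = w - 1` then `U = -1`, `∑ u ^ 2 = 1`, so `u = - 1` at exactly one
`x₀` and `0` elsewhere; `x₀ ≠ 1`, `x₀⁻¹ = x₀`. -/
def S_SUMQ : Prop :=
  ∀ (Q : Type) [CommGroup Q] [Fintype Q] [DecidableEq Q] (r : Q → ℤ) (k₁ k₂ c μ w : ℤ),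
    w = Fintype.card Q → 2 ≤ w → 1 ≤ c → r 1 = k₁ → ∑ x, r x = k₂ → (∀ x, r x⁻¹ = r x) →
    (∀ x, c ∣ r x - r 1) → ∑ x, r x ^ 2 = c ^ 2 + μ → k₂ ^ 2 = c ^ 2 + μ * w → k₂ < w * k₁ →
    w * k₁ - k₂ = (w - 1) * c ∨ (w * k₁ - k₂ = c ∧ ∃ x₀ : Q, x₀ ≠ 1 ∧ x₀ * x₀ = 1)

/-- **NUM1**. Let `y = √b`, so `c = y ^ (m - 2)`. With `K = S a (m-1)`, `S a m = a K + 1`, `S b m = b S b (m-1) + 1`
eliminate `w`: `(S b (m-1) - c) (a K + 1) = (K - c) (b S b (m-1) + 1)`; with `(b - 1) S b (m-1) = c ^ 2 b - 1` this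
becomes (multiply by `b - 1`; a factor `c b - 1` or so cancels) `K (c (b - a) + a - 1) = b ^ (m-1) - 1`, i.e.
`c K (b - a) = b ^ (m-1) - a ^ (m-1)`, i.e. `c ∑_{i ≤ m-2} a ^ i = ∑_{i ≤ m-2} b ^ i a ^ (m-2-i)`. Adding the
reflected sum, `0 = ∑_i [y^(2i) a^(m-2-i) + y^(2(m-2-i)) a^i - y^(m-2) (a^i + a^(m-2-i))]`, and for `2 i ≤ m - 2`,
`t = m - 2 - 2 i`, the term is `a^i y^(2i) (y^t - 1) (y^t - a^t)`: all terms have the sign of `y - a`, and that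
of `i = 0` is not zero if `y ≠ a`. -/
def S_NUM1 : Prop :=
  ∀ a b m c w : ℕ, 2 ≤ a → a < b → 3 ≤ m → c ^ 2 = b ^ (m - 2) → w * S a m = S b m →
    w * S a (m - 1) + c = S b (m - 1) + w * c → b = a ^ 2

/-- **NUM2**. With `K = S a (m-1)`, `B = b c`, `B ^ 2 = b ^ m`, `B ≥ b ^ 2`: from `w K = k₂ + c`,
`w (a K + 1) = b k₂ + 1` we get `w ((b - a) K - 1) = B - 1`; and `w (a K + 1) (b - 1) = B ^ 2 - 1`, so
`(a K + 1) (b - 1) = ((b - a) K - 1) (B + 1)`, impossible as `B ≥ b ^ 2` (if `b ≥ 2 a` the right side is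
`≥ (a K - 1) (b ^ 2 + 1)`; if `b < 2 a` use `K ≥ a ^ 2 + a + 1`). -/
def S_NUM2 : Prop :=
  ∀ a b m c w : ℕ, 2 ≤ a → a < b → 4 ≤ m → c ^ 2 = b ^ (m - 2) → w * S a m = S b m →
    w * S a (m - 1) ≠ S b (m - 1) + c

/-- **NUM3**. (`S n (m-1) / S n m` decreases in `n`: `S b (m-1) S a m < S a (m-1) S b m`, since
`S n m = n S n (m-1) + 1`.) -/
def S_NUM3 : Prop :=
  ∀ a b m w : ℕ, 2 ≤ a → a < b → 2 ≤ m → w * S a m = S b m → S b (m - 1) < w * S a (m - 1)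

/-- **ABEL** (from RED, SUMQ, NUM1, NUM2, NUM3). `Q = G ⧸ H`, `r q` = number of the `d ∈ D` with `mk d = q`.
`g * φ g ∈ H`, so `mk (φ g) = (mk g)⁻¹` and `r` is even. `∑ x, r x * r (x⁻¹ * g)` is the number of pairs
`(d₁, d₂)` in `D` with `mk (d₁ * d₂⁻¹) = g`, so RED holds with `N = S b (m-1) - S b (m-2) = b ^ (m-2)`,
`μ = #H * S b (m-2)`; `w = #Q` divides `#G = S b m ≡ 1 (mod b)`. `r 1 = S a (m-1)`. `w ≥ 2` as `H ≠ ⊤`, so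
`a < b`. If `m = 3` then `#G` is odd, so `Q` has no `x₀ ≠ 1` with `x₀ * x₀ = 1`. -/
def S_ABEL : Prop :=
  ∀ (G : Type) [CommGroup G] [Fintype G] [DecidableEq G] (φ : G →* G) (D : Finset G)
    (H : Subgroup G) (a b m : ℕ), (∀ g, φ (φ g) = g) → (∀ g, g ∈ D → φ g ∈ D) →
    (∀ g, g ∈ H ↔ φ g = g) → H ≠ ⊤ → 3 ≤ m → 2 ≤ a → 2 ≤ b → Nat.card G = S b m →
    D.card = S b (m - 1) →
    (∀ g : G, g ≠ 1 → ((D ×ˢ D).filter fun p : G × G => p.1 * p.2⁻¹ = g).card = S b (m - 2)) →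
    Nat.card H = S a m → ({d ∈ D | φ d = d} : Finset G).card = S a (m - 1) → b = a ^ 2

/-- **PLANE**. For `x ≠ y` there is exactly one `g` with `x * g⁻¹ ∈ D` and `y * g⁻¹ ∈ D` (`x * y⁻¹ = d₁ * d₂⁻¹`
for exactly one `(d₁, d₂)`, and `g = d₁⁻¹ * x`). Let `x ∉ H`, `y = φ x ≠ x`, and `g` that element. `φ g` has the
same property (apply `φ`), so `φ g = g`, `g ∈ H`. Conversely if `g ∈ H` and `x * g⁻¹ ∈ D` then `φ x * g⁻¹ ∈ D`, so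
`g` is unique: for every `x ∉ H` there is exactly one `g ∈ H` with `x * g⁻¹ ∈ D`. Counting the pairs:
`#G - #H = #H * (#D - #{d ∈ D | φ d = d})` (`d = x * g⁻¹ ∉ H` iff `x ∉ H`), i.e.
`b² + b - a² - a = (a² + a + 1) (b - a)`, and `b ≠ a` as `#H < #G`; so `b + a + 1 = a² + a + 1`. -/
def S_PLANE : Prop :=
  ∀ (G : Type) [Group G] [Fintype G] [DecidableEq G] (φ : G →* G) (D : Finset G)
    (H : Subgroup G) (a b : ℕ), (∀ g, φ (φ g) = g) → (∀ g, g ∈ D → φ g ∈ D) →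
    (∀ g, g ∈ H ↔ φ g = g) → H ≠ ⊤ → 2 ≤ a → 2 ≤ b → Nat.card G = S b 3 → D.card = S b 2 →
    (∀ g : G, g ≠ 1 → ((D ×ˢ D).filter fun p : G × G => p.1 * p.2⁻¹ = g).card = 1) →
    Nat.card H = S a 3 → ({d ∈ D | φ d = d} : Finset G).card = S a 2 → b = a ^ 2

/-- **EVEN**. (`(a + 1) (a ^ 2 - 1) ...`: `S (a²) m = S a m * (a ^ m + 1) / (a + 1)`, and for even `m`
`a ^ m + 1 ≡ 2 (mod a + 1)`.) -/
def S_EVEN : Prop :=
  ∀ a m : ℕ, 2 ≤ a → 1 ≤ m → S a m ∣ S (a ^ 2) m → Odd m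

/-- **LIM**. `N s = n ^ (2 ^ j s)` with `j` nondecreasing, `j s ≤ s` and `j` unbounded. Let
`t s = s - j s ≥ 0`, nondecreasing. From the hypothesis (`h ≥ 1` as `S _ _ ≥ 1`) there is a constant `K₀` with
`Q ^ d / K₀ ≤ (N s) ^ i ≤ K₀ Q ^ d` for large `s`, `Q = q ^ (2 ^ s)`, `d = d s ≤ C`; as `N s → ∞`, `d s ≥ 1` for
large `s`. Here `Q ^ d = (q ^ (d 2 ^ t)) ^ (2 ^ j)` and `(N s) ^ i = (n ^ i) ^ (2 ^ j)`. So
`q ^ (d 2 ^ t) ≤ K₀ n ^ i`, and `t s` is bounded; some pair `(t, d)` occurs for infinitely many `s`, and then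
`n ^ i = q ^ (d 2 ^ t)` since otherwise the ratio of the `2 ^ j`-th powers tends to `0` or `∞`. -/
def S_LIM : Prop :=
  ∀ (q n i e C : ℕ) (N : ℕ → ℕ), 2 ≤ q → 2 ≤ n → 1 ≤ i → 1 ≤ e → N 0 = n →
    (∀ s, N (s + 1) = N s ∨ N (s + 1) = N s ^ 2) → (∀ B, ∃ s, B < N s) →
    (∀ s, ∃ h d : ℕ, h ≤ C ∧ d ≤ C ∧ (h = 0 → S (N s) (i + 1) = 0) ∧
      |((e * S (N s) (i + 1) : ℕ) : ℝ) - h * ((q ^ (2 ^ s) : ℕ) : ℝ) ^ d| *
        √((q ^ (2 ^ s) : ℕ) : ℝ) ≤ C * ((q ^ (2 ^ s) : ℕ) : ℝ) ^ d) →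
    ∃ d : ℕ, n ^ i = q ^ d

end Pool.Agent.T2h48.AD
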